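import Mathlib

set_option autoImplicit false
set_option linter.unusedSectionVars false
set_option linter.unusedSimpArgs false
set_option linter.unusedVariables false

namespace Pool.Agent.H149R2

open Finset

/-- the sign character of `ZMod 2` -/
noncomputable def sgn (a : ZMod 2) : ℝ := if a = 0 then 1 else -1

lemma sgn_zero : sgn 0 = 1 := by simp [sgn]

lemma sgn_one : sgn 1 = -1 := by simp [sgn]

lemma zmod2_cases (a : ZMod 2) : a = 0 ∨ a = 1 := by
  revert a; decide

lemma sgn_add (a b : ZMod 2) : sgn (a + b) = sgn a * sgn b := by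
  rcases zmod2_cases a with rfl | rfl <;> rcases zmod2_cases b with rfl | rfl
  · simp [sgn_zero]
  · simp [sgn_zero]
  · simp [sgn_zero]
  · have : (1 : ZMod 2) + 1 = 0 := by decide
    rw [this, sgn_zero, sgn_one]; norm_num

lemma sgn_mul_self (a : ZMod 2) : sgn a * sgn a = 1 := by
  rcases zmod2_cases a with rfl | rfl
  · simp [sgn_zero]
  · simp [sgn_one]

lemma abs_sgn (a : ZMod 2) : |sgn a| = 1 := by
  rcases zmod2_cases a with rfl | rfl
  · simp [sgn_zero]
  · simp [sgn_one]

lemma sgn_eq_one_or (a : ZMod 2) : sgn a = 1 ∨ sgn a = -1 := by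
  rcases zmod2_cases a with rfl | rfl
  · left; exact sgn_zero
  · right; exact sgn_one

section

variable {G : Type*} [AddCommGroup G] [Module (ZMod 2) G] [Fintype G] [DecidableEq G]

lemma sgn_sum {ι : Type*} (s : Finset ι) (f : ι → ZMod 2) :
    sgn (∑ i ∈ s, f i) = ∏ i ∈ s, sgn (f i) := by
  classical
  induction s using Finset.induction_on with
  | empty => simp [sgn_zero]
  | insert a s ha ih => rw [Finset.sum_insert ha, Finset.prod_insert ha, sgn_add, ih]

lemma sum_sgn_of_ne (φ : Module.Dual (ZMod 2) G) (h : φ ≠ 0) :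
    ∑ x : G, sgn (φ x) = 0 := by
  have : ∃ x0, φ x0 ≠ 0 := by
    by_contra hc
    push Not at hc
    exact h (LinearMap.ext hc)
  obtain ⟨x0, hx0⟩ := this
  have h1 : φ x0 = 1 := by
    rcases zmod2_cases (φ x0) with h | h
    · exact absurd h hx0
    · exact h
  have h2 : ∑ x : G, sgn (φ x) = ∑ x : G, sgn (φ (x + x0)) :=
    (Fintype.sum_equiv (Equiv.addRight x0) _ _ (fun x => rfl)).symm
  have h3 : ∑ x : G, sgn (φ (x + x0)) = - ∑ x : G, sgn (φ x) := by
    rw [← Finset.sum_neg_distrib]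
    refine Finset.sum_congr rfl (fun x _ => ?_)
    rw [map_add, sgn_add, h1, sgn_one]; ring
  linarith

lemma sum_sgn (φ : Module.Dual (ZMod 2) G) [Decidable (φ = 0)] :
    ∑ x : G, sgn (φ x) = if φ = 0 then (Fintype.card G : ℝ) else 0 := by
  split_ifs with h
  · subst h
    simp [sgn_zero]
  · exact sum_sgn_of_ne φ h

lemma sum_sgn_nonneg (φ : Module.Dual (ZMod 2) G) : 0 ≤ ∑ x : G, sgn (φ x) := by
  classical
  rw [sum_sgn]
  split_ifs <;> positivity

noncomputable instance : Fintype (Module.Dual (ZMod 2) G) :=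
  Fintype.ofInjective (fun φ : Module.Dual (ZMod 2) G => (φ : G → ZMod 2)) DFunLike.coe_injective

lemma card_dual : Fintype.card (Module.Dual (ZMod 2) G) = Fintype.card G := by
  have h1 := Module.card_eq_pow_finrank (K := ZMod 2) (V := G)
  have h2 := Module.card_eq_pow_finrank (K := ZMod 2) (V := Module.Dual (ZMod 2) G)
  rw [Subspace.dual_finrank_eq] at h2
  rw [h1, h2]

lemma sum_dual_sgn (x : G) :
    ∑ φ : Module.Dual (ZMod 2) G, sgn (φ x) = if x = 0 then (Fintype.card G : ℝ) else 0 := by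
  split_ifs with h
  · subst h
    simp [sgn_zero, card_dual]
  · have : ∃ φ0 : Module.Dual (ZMod 2) G, φ0 x ≠ 0 := by
      by_contra hc
      push Not at hc
      exact h ((Module.forall_dual_apply_eq_zero_iff (ZMod 2) x).1 hc)
    obtain ⟨φ0, hφ0⟩ := this
    have h1 : φ0 x = 1 := by
      rcases zmod2_cases (φ0 x) with h | h
      · exact absurd h hφ0
      · exact h
    have h2 : ∑ φ : Module.Dual (ZMod 2) G, sgn (φ x) =
        ∑ φ : Module.Dual (ZMod 2) G, sgn ((φ + φ0) x) :=
      (Fintype.sum_equiv (Equiv.addRight φ0) _ _ (fun x => rfl)).symm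
    have h3 : ∑ φ : Module.Dual (ZMod 2) G, sgn ((φ + φ0) x) =
        - ∑ φ : Module.Dual (ZMod 2) G, sgn (φ x) := by
      rw [← Finset.sum_neg_distrib]
      refine Finset.sum_congr rfl (fun φ _ => ?_)
      rw [LinearMap.add_apply, sgn_add, h1, sgn_one]; ring
    linarith

/-- unnormalised Fourier coefficient of a set -/
noncomputable def ft (A : Finset G) (φ : Module.Dual (ZMod 2) G) : ℝ := ∑ y ∈ A, sgn (φ y)

lemma abs_ft_le (A : Finset G) (φ : Module.Dual (ZMod 2) G) : |ft A φ| ≤ A.card := by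
  unfold ft
  refine le_trans (Finset.abs_sum_le_sum_abs _ _) ?_
  simp [abs_sgn]

/-- number of representations -/
def rep (A : Finset G) (x : G) : ℕ := (A.filter (fun y => x + y ∈ A)).card

lemma add_self' (x : G) : x + x = 0 := ZModModule.add_self x

lemma add_eq_zero_iff' (x y : G) : x + y = 0 ↔ x = y := by
  constructor
  · intro h
    have : x + y + y = y := by rw [h, zero_add]
    rwa [add_assoc, ZModModule.add_self, add_zero] at this
  · rintro rfl; exact ZModModule.add_self x

lemma sum_ft_sq (A : Finset G) (x : G) :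
    ∑ φ : Module.Dual (ZMod 2) G, (ft A φ) ^ 2 * sgn (φ x) =
      (Fintype.card G : ℝ) * (rep A x : ℝ) := by
  have h1 : ∀ φ : Module.Dual (ZMod 2) G, (ft A φ) ^ 2 * sgn (φ x) =
      ∑ y ∈ A, ∑ z ∈ A, sgn (φ (y + z + x)) := by
    intro φ
    unfold ft
    rw [sq, Finset.sum_mul_sum, Finset.sum_mul]
    refine Finset.sum_congr rfl (fun y _ => ?_)
    rw [Finset.sum_mul]
    refine Finset.sum_congr rfl (fun z _ => ?_)
    rw [map_add, map_add, sgn_add, sgn_add]
  simp_rw [h1]
  rw [Finset.sum_comm]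
  have h2 : ∀ y ∈ A, ∑ φ : Module.Dual (ZMod 2) G, ∑ z ∈ A, sgn (φ (y + z + x)) =
      if x + y ∈ A then (Fintype.card G : ℝ) else 0 := by
    intro y _
    rw [Finset.sum_comm]
    have h3 : ∀ z ∈ A, ∑ φ : Module.Dual (ZMod 2) G, sgn (φ (y + z + x)) =
        if z = x + y then (Fintype.card G : ℝ) else 0 := by
      intro z _
      rw [sum_dual_sgn]
      have : y + z + x = 0 ↔ z = x + y := by
        rw [show y + z + x = z + (x + y) by abel, add_eq_zero_iff']
      simp only [this]
    rw [Finset.sum_congr rfl h3, Finset.sum_ite_eq']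
  rw [Finset.sum_congr rfl h2, rep, Finset.card_filter]
  push_cast
  rw [Finset.mul_sum]
  refine Finset.sum_congr rfl (fun y _ => ?_)
  split_ifs <;> simp

lemma sum_ft_sq_zero (A : Finset G) :
    ∑ φ : Module.Dual (ZMod 2) G, (ft A φ) ^ 2 = (Fintype.card G : ℝ) * (A.card : ℝ) := by
  have := sum_ft_sq A 0
  simp only [map_zero, sgn_zero, mul_one] at this
  rw [this]
  congr 2
  unfold rep
  congr 1
  ext y
  simp

/-- Moments of a positive definite function are nonnegative. -/
lemma sum_pow_nonneg (c : Module.Dual (ZMod 2) G → ℝ) (hc : ∀ φ, 0 ≤ c φ) (p : ℕ) :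
    ∀ ψ : Module.Dual (ZMod 2) G,
      0 ≤ ∑ x : G, (∑ φ : Module.Dual (ZMod 2) G, c φ * sgn (φ x)) ^ p * sgn (ψ x) := by
  induction p with
  | zero =>
    intro ψ
    simpa using sum_sgn_nonneg ψ
  | succ p ih =>
    intro ψ
    have h1 : ∀ x : G, (∑ φ : Module.Dual (ZMod 2) G, c φ * sgn (φ x)) ^ (p + 1) * sgn (ψ x) =
        ∑ χ : Module.Dual (ZMod 2) G, c χ *
          ((∑ φ : Module.Dual (ZMod 2) G, c φ * sgn (φ x)) ^ p * sgn ((χ + ψ) x)) := by
      intro x
      rw [pow_succ, mul_assoc, Finset.sum_mul, Finset.mul_sum]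
      refine Finset.sum_congr rfl (fun χ _ => ?_)
      rw [LinearMap.add_apply, sgn_add]
      ring
    simp_rw [h1]
    rw [Finset.sum_comm]
    refine Finset.sum_nonneg (fun χ _ => ?_)
    rw [← Finset.mul_sum]
    exact mul_nonneg (hc χ) (ih _)

/-- The key positivity: all moments of `N r(x) - a ^ 2` are nonnegative. -/
lemma moment_nonneg (A : Finset G) (p : ℕ) :
    0 ≤ ∑ x : G, ((Fintype.card G : ℝ) * (rep A x : ℝ) - (A.card : ℝ) ^ 2) ^ p := by
  classical
  have h := sum_pow_nonneg (G := G) (fun φ => if φ = 0 then 0 else (ft A φ) ^ 2)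
    (fun φ => by split_ifs <;> positivity) p 0
  have h1 : ∀ x : G, ∑ φ : Module.Dual (ZMod 2) G,
      (if φ = 0 then 0 else (ft A φ) ^ 2) * sgn (φ x) =
      (Fintype.card G : ℝ) * (rep A x : ℝ) - (A.card : ℝ) ^ 2 := by
    intro x
    rw [← sum_ft_sq A x]
    rw [← Finset.sum_erase_add _ _ (Finset.mem_univ (0 : Module.Dual (ZMod 2) G))]
    rw [← Finset.sum_erase_add (Finset.univ) (fun φ => (ft A φ) ^ 2 * sgn (φ x))
      (Finset.mem_univ (0 : Module.Dual (ZMod 2) G))]
    have h2 : ft A (0 : Module.Dual (ZMod 2) G) = A.card := by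
      simp [ft, sgn_zero]
    rw [h2]
    simp only [if_true, zero_mul, add_zero, LinearMap.zero_apply, sgn_zero, mul_one,
      add_sub_cancel_right]
    refine Finset.sum_congr rfl (fun φ hφ => ?_)
    rw [if_neg (Finset.ne_of_mem_erase hφ)]
  simp only [h1, LinearMap.zero_apply, sgn_zero, mul_one] at h
  exact h

end

end Pool.Agent.H149R2
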