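import Mathlib
import Pool.Agent.H149R2.Fourier

set_option autoImplicit false
set_option linter.unusedSectionVars false
set_option linter.unusedSimpArgs false
set_option linter.unusedVariables false

namespace Pool.Agent.H149R2

open Finset

variable {G : Type*} [AddCommGroup G] [Module (ZMod 2) G] [Fintype G] [DecidableEq G]

lemma exp_sgn (t : ℝ) (a : ZMod 2) :
    Real.exp (t * sgn a) = Real.cosh t + sgn a * Real.sinh t := by
  rcases sgn_eq_one_or a with h | h
  · rw [h, mul_one, one_mul, Real.cosh_add_sinh]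
  · rw [h, mul_neg, mul_one, neg_one_mul, ← sub_eq_add_neg, Real.cosh_sub_sinh]

lemma sum_exp_indep {ι : Type*} [Fintype ι] [DecidableEq ι]
    (φ : ι → Module.Dual (ZMod 2) G) (hφ : LinearIndependent (ZMod 2) φ) (e : ι → ℝ)
    (he : ∀ i, e i = 1 ∨ e i = -1) (t : ℝ) :
    ∑ x : G, Real.exp (t * ∑ i, e i * sgn (φ i x)) =
      (Fintype.card G : ℝ) * (Real.cosh t) ^ (Fintype.card ι) := by
  have h1 : ∀ x : G, Real.exp (t * ∑ i, e i * sgn (φ i x)) =
      ∏ i, (e i * Real.sinh t * sgn (φ i x) + Real.cosh t) := by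
    intro x
    rw [Finset.mul_sum, Real.exp_sum]
    refine Finset.prod_congr rfl (fun i _ => ?_)
    rcases he i with h | h
    · rw [h, one_mul, exp_sgn]; ring
    · rw [h]
      have : t * (-1 * sgn (φ i x)) = (-t) * sgn (φ i x) := by ring
      rw [this, exp_sgn, Real.cosh_neg, Real.sinh_neg]; ring
  simp_rw [h1]
  simp_rw [Finset.prod_add]
  rw [Finset.sum_comm]
  rw [Finset.sum_eq_single_of_mem (∅ : Finset ι) (by simp)]
  · simp [Finset.prod_const, Finset.card_univ]
  · intro s _ hs
    have h2 : ∀ x : G, (∏ i ∈ s, e i * Real.sinh t * sgn (φ i x)) *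
        ∏ i ∈ Finset.univ \ s, Real.cosh t =
        ((∏ i ∈ s, e i * Real.sinh t) * ∏ i ∈ Finset.univ \ s, Real.cosh t) *
          sgn ((∑ i ∈ s, φ i) x) := by
      intro x
      rw [Finset.prod_mul_distrib, LinearMap.sum_apply, sgn_sum]
      ring
    simp_rw [h2]
    rw [← Finset.mul_sum, sum_sgn_of_ne, mul_zero]
    intro h0
    have h3 := linearIndependent_iff'.1 hφ s (fun _ => 1) (by simpa using h0)
    apply hs
    rw [Finset.eq_empty_iff_forall_notMem]
    intro i hi
    exact one_ne_zero (h3 i hi)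

/-- Chang's theorem in the form we need. -/
lemma chang {ι : Type*} [Fintype ι] [DecidableEq ι]
    (φ : ι → Module.Dual (ZMod 2) G) (hφ : LinearIndependent (ZMod 2) φ)
    (U : Finset G) (hU : U.Nonempty) (hs : ∀ i, (U.card : ℝ) / 2 ≤ |ft U (φ i)|)
    (R : ℝ) (hR : (Fintype.card G : ℝ) ≤ R * U.card) :
    Real.exp ((Fintype.card ι : ℝ) / 8) ≤ R := by
  classical
  set d : ℝ := (Fintype.card ι : ℝ) with hd
  have hUc : (0 : ℝ) < U.card := by exact_mod_cast hU.card_pos
  let e : ι → ℝ := fun i => if 0 ≤ ft U (φ i) then 1 else -1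
  have he : ∀ i, e i = 1 ∨ e i = -1 := by
    intro i; dsimp only [e]; split_ifs <;> simp
  have hef : ∀ i, e i * ft U (φ i) = |ft U (φ i)| := by
    intro i; dsimp only [e]; split_ifs with h
    · rw [one_mul, abs_of_nonneg h]
    · push Not at h
      rw [neg_one_mul, abs_of_neg h]
  have h1 : d * ((U.card : ℝ) / 2) ≤ ∑ u ∈ U, ∑ i, e i * sgn (φ i u) := by
    rw [Finset.sum_comm]
    have : ∀ i, ∑ u ∈ U, e i * sgn (φ i u) = |ft U (φ i)| := by
      intro i
      rw [← Finset.mul_sum, ← hef i, ft]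
    simp_rw [this]
    calc d * ((U.card : ℝ) / 2) = ∑ i : ι, ((U.card : ℝ) / 2) := by
          rw [Finset.sum_const, Finset.card_univ, nsmul_eq_mul]
      _ ≤ _ := Finset.sum_le_sum (fun i _ => hs i)
  -- tangent line: exp y ≥ exp c * (1 + y - c)
  have h2 : ∀ y : ℝ, Real.exp (d / 4) * (1 + (y - d / 4)) ≤ Real.exp y := by
    intro y
    have := Real.add_one_le_exp (y - d / 4)
    calc Real.exp (d / 4) * (1 + (y - d / 4)) ≤ Real.exp (d / 4) * Real.exp (y - d / 4) := by
          apply mul_le_mul_of_nonneg_left _ (Real.exp_pos _).le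
          linarith
      _ = Real.exp y := by rw [← Real.exp_add]; congr 1; ring
  have h3 : (U.card : ℝ) * Real.exp (d / 4) ≤
      ∑ u ∈ U, Real.exp ((1 / 2) * ∑ i, e i * sgn (φ i u)) := by
    calc (U.card : ℝ) * Real.exp (d / 4)
        ≤ Real.exp (d / 4) * ((U.card : ℝ) +
            ((1 / 2) * ∑ u ∈ U, ∑ i, e i * sgn (φ i u) - U.card * (d / 4))) := by
          rw [mul_comm]
          apply mul_le_mul_of_nonneg_left _ (Real.exp_pos _).le
          linarith
      _ = ∑ u ∈ U, Real.exp (d / 4) *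
            (1 + ((1 / 2) * ∑ i, e i * sgn (φ i u) - d / 4)) := by
          rw [← Finset.mul_sum]
          congr 1
          rw [Finset.sum_add_distrib, Finset.sum_sub_distrib, Finset.sum_const, Finset.sum_const,
            ← Finset.mul_sum]
          simp
      _ ≤ _ := Finset.sum_le_sum (fun u _ => h2 _)
  have h4 : ∑ u ∈ U, Real.exp ((1 / 2) * ∑ i, e i * sgn (φ i u)) ≤
      (Fintype.card G : ℝ) * (Real.cosh (1 / 2)) ^ (Fintype.card ι) := by
    rw [← sum_exp_indep φ hφ e he (1 / 2)]
    exact Finset.sum_le_sum_of_subset_of_nonneg (Finset.subset_univ _)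
      (fun _ _ _ => (Real.exp_pos _).le)
  have h5 : (Real.cosh (1 / 2)) ^ (Fintype.card ι) ≤ Real.exp (d / 8) := by
    calc (Real.cosh (1 / 2)) ^ (Fintype.card ι) ≤ (Real.exp ((1 / 2) ^ 2 / 2)) ^ (Fintype.card ι) :=
          pow_le_pow_left₀ (Real.cosh_pos _).le (Real.cosh_le_exp_half_sq _) _
      _ = Real.exp (d / 8) := by
          rw [← Real.exp_nat_mul]
          congr 1
          rw [hd]; ring
  have h6 : (U.card : ℝ) * Real.exp (d / 4) ≤ R * U.card * Real.exp (d / 8) := by
    refine le_trans h3 (le_trans h4 ?_)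
    exact mul_le_mul hR h5 (pow_nonneg (Real.cosh_pos _).le _) (le_trans (by positivity) hR)
  have h7 : Real.exp (d / 4) = Real.exp (d / 8) * Real.exp (d / 8) := by
    rw [← Real.exp_add]; congr 1; ring
  rw [h7] at h6
  have h8 : 0 < (U.card : ℝ) * Real.exp (d / 8) := by positivity
  have h9 : ((U.card : ℝ) * Real.exp (d / 8)) * Real.exp (d / 8) ≤
      ((U.card : ℝ) * Real.exp (d / 8)) * R := by
    calc ((U.card : ℝ) * Real.exp (d / 8)) * Real.exp (d / 8)
        = (U.card : ℝ) * (Real.exp (d / 8) * Real.exp (d / 8)) := by ring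
      _ ≤ R * U.card * Real.exp (d / 8) := h6
      _ = _ := by ring
  exact le_of_mul_le_mul_left h9 h8

/-- There is a subspace of codimension at most `8 * K` on which every character with large
Fourier coefficient is trivial. -/
lemma exists_subspace (U : Finset G) (hU : U.Nonempty) (K : ℕ)
    (hR : (Fintype.card G : ℝ) ≤ 2 ^ K * U.card) :
    ∃ V : Submodule (ZMod 2) G,
      Module.finrank (ZMod 2) G ≤ Module.finrank (ZMod 2) V + 8 * K ∧
      ∀ φ : Module.Dual (ZMod 2) G, (U.card : ℝ) / 2 ≤ |ft U φ| → ∀ v ∈ V, φ v = 0 := by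
  classical
  set S : Set (Module.Dual (ZMod 2) G) := {φ | (U.card : ℝ) / 2 ≤ |ft U φ|} with hS
  obtain ⟨b, hbS, hbspan, hbli⟩ := exists_linearIndependent (ZMod 2) S
  haveI : Fintype b := Fintype.ofFinite b
  have hch := chang (fun i : b => (i : Module.Dual (ZMod 2) G)) hbli U hU
    (fun i => hbS i.2) (2 ^ K) hR
  have hcard : Fintype.card b ≤ 8 * K := by
    have h1 : Real.exp ((Fintype.card b : ℝ) / 8) ≤ Real.exp K := by
      refine le_trans hch ?_
      have h2 : (2 : ℝ) ≤ Real.exp 1 := by linarith [Real.exp_one_gt_d9]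
      calc (2 : ℝ) ^ K ≤ (Real.exp 1) ^ K := pow_le_pow_left₀ (by norm_num) h2 K
        _ = Real.exp K := by rw [← Real.exp_nat_mul]; simp
    have h2 := Real.exp_le_exp.1 h1
    have h3 : (Fintype.card b : ℝ) ≤ 8 * K := by linarith
    exact_mod_cast h3
  refine ⟨(Submodule.span (ZMod 2) S).dualCoannihilator, ?_, ?_⟩
  · have h1 := Subspace.finrank_add_finrank_dualCoannihilator_eq (Submodule.span (ZMod 2) S)
    have h2 : Module.finrank (ZMod 2) (Submodule.span (ZMod 2) S) ≤ 8 * K := by
      rw [← hbspan]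
      refine le_trans (finrank_span_le_card b) ?_
      rw [Set.toFinset_card]
      exact hcard
    omega
  · intro φ hφ v hv
    rw [Submodule.mem_dualCoannihilator] at hv
    exact hv φ (Submodule.subset_span hφ)

end Pool.Agent.H149R2
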