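import Mathlib

set_option autoImplicit false
set_option linter.unusedSectionVars false
set_option linter.unusedSimpArgs false
set_option linter.unusedVariables false

namespace Pool.Agent.H149R2

open Finset

lemma exp_le_cosh_add {t x : ℝ} (h1 : -1 ≤ x) (h2 : x ≤ 1) :
    Real.exp (t * x) ≤ Real.cosh t + x * Real.sinh t := by
  have h := convexOn_exp.2 (Set.mem_univ t) (Set.mem_univ (-t))
    (show 0 ≤ (1 + x) / 2 by linarith) (show 0 ≤ (1 - x) / 2 by linarith) (by ring)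
  simp only [smul_eq_mul] at h
  have h3 : (1 + x) / 2 * t + (1 - x) / 2 * -t = t * x := by ring
  rw [h3] at h
  refine le_trans h (le_of_eq ?_)
  rw [Real.cosh_eq, Real.sinh_eq]
  ring

lemma sum_exp_le {β : Type*} (B : Finset β) (X : β → ℝ) (h1 : ∀ b ∈ B, -1 ≤ X b)
    (h2 : ∀ b ∈ B, X b ≤ 1) (h0 : ∑ b ∈ B, X b = 0) (t : ℝ) :
    ∑ b ∈ B, Real.exp (t * X b) ≤ (B.card : ℝ) * Real.exp (t ^ 2 / 2) := by
  calc ∑ b ∈ B, Real.exp (t * X b) ≤ ∑ b ∈ B, (Real.cosh t + X b * Real.sinh t) :=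
        Finset.sum_le_sum (fun b hb => exp_le_cosh_add (h1 b hb) (h2 b hb))
    _ = (B.card : ℝ) * Real.cosh t := by
        rw [Finset.sum_add_distrib, ← Finset.sum_mul, h0, Finset.sum_const, nsmul_eq_mul]; ring
    _ ≤ _ := mul_le_mul_of_nonneg_left (Real.cosh_le_exp_half_sq t) (by positivity)

lemma pow_le_fact_exp (x : ℝ) (m : ℕ) :
    x ^ (2 * m) ≤ ((2 * m).factorial : ℝ) * (Real.exp x + Real.exp (-x)) := by
  have h1 : |x| ^ (2 * m) / ((2 * m).factorial : ℝ) ≤ Real.exp |x| :=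
    Real.pow_div_factorial_le_exp |x| (abs_nonneg x) (2 * m)
  have h2 : Real.exp |x| ≤ Real.exp x + Real.exp (-x) := by
    rcases abs_choice x with h | h <;> rw [h]
    · linarith [Real.exp_pos (-x)]
    · linarith [Real.exp_pos x]
  have h3 : (0 : ℝ) < ((2 * m).factorial : ℝ) := by exact_mod_cast Nat.factorial_pos _
  have h4 : |x| ^ (2 * m) = x ^ (2 * m) := by
    rw [pow_mul, pow_mul, sq_abs]
  rw [← h4]
  rw [div_le_iff₀ h3] at h1
  nlinarith

lemma sum_exp_prod {β : Type*} [DecidableEq β] (B : Finset β) (X : β → ℝ) (k : ℕ) (t : ℝ) :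
    ∑ a ∈ Fintype.piFinset (fun _ : Fin k => B), Real.exp (t * ∑ i, X (a i)) =
      (∑ b ∈ B, Real.exp (t * X b)) ^ k := by
  have h := Finset.prod_univ_sum (fun _ : Fin k => B) (fun _ b => Real.exp (t * X b))
  rw [Finset.prod_const, Finset.card_univ, Fintype.card_fin] at h
  rw [h]
  refine Finset.sum_congr rfl (fun a _ => ?_)
  rw [Finset.mul_sum, Real.exp_sum]

/-- Moment bound for sums of independent bounded centred variables. -/
lemma moment_bound {β : Type*} [DecidableEq β] (B : Finset β) (X : β → ℝ)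
    (h1 : ∀ b ∈ B, -1 ≤ X b) (h2 : ∀ b ∈ B, X b ≤ 1) (h0 : ∑ b ∈ B, X b = 0)
    (k m : ℕ) (hk : 1 ≤ k) (hm : 1 ≤ m) :
    ∑ a ∈ Fintype.piFinset (fun _ : Fin k => B), (∑ i, X (a i)) ^ (2 * m) ≤
      2 * (6 * (m : ℝ) * k) ^ m * (B.card : ℝ) ^ k := by
  have hk0 : (0 : ℝ) < k := by exact_mod_cast hk
  have hm0 : (0 : ℝ) < m := by exact_mod_cast hm
  set t : ℝ := Real.sqrt (2 * m / k) with ht
  have ht2 : t ^ 2 = 2 * m / k := by
    rw [ht, Real.sq_sqrt (by positivity)]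
  have ht0 : 0 < t := by
    rw [ht]; exact Real.sqrt_pos.2 (by positivity)
  have hF : (0 : ℝ) < ((2 * m).factorial : ℝ) := by exact_mod_cast Nat.factorial_pos _
  have step1 : ∀ a : Fin k → β, t ^ (2 * m) * (∑ i, X (a i)) ^ (2 * m) ≤
      ((2 * m).factorial : ℝ) *
        (Real.exp (t * ∑ i, X (a i)) + Real.exp ((-t) * ∑ i, X (a i))) := by
    intro a
    have := pow_le_fact_exp (t * ∑ i, X (a i)) m
    rw [mul_pow] at this
    rw [neg_mul]
    exact this
  have hb : ∀ s : ℝ, s ^ 2 = 2 * m / k →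
      ∑ a ∈ Fintype.piFinset (fun _ : Fin k => B), Real.exp (s * ∑ i, X (a i)) ≤
        (B.card : ℝ) ^ k * Real.exp m := by
    intro s hs
    rw [sum_exp_prod]
    calc (∑ b ∈ B, Real.exp (s * X b)) ^ k ≤ ((B.card : ℝ) * Real.exp (s ^ 2 / 2)) ^ k := by
          apply pow_le_pow_left₀ (Finset.sum_nonneg (fun b _ => (Real.exp_pos _).le))
          exact sum_exp_le B X h1 h2 h0 s
      _ = (B.card : ℝ) ^ k * Real.exp m := by
          rw [mul_pow, ← Real.exp_nat_mul, hs]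
          congr 2
          field_simp
  have step2 : t ^ (2 * m) * ∑ a ∈ Fintype.piFinset (fun _ : Fin k => B),
      (∑ i, X (a i)) ^ (2 * m) ≤ ((2 * m).factorial : ℝ) * (2 * ((B.card : ℝ) ^ k * Real.exp m)) := by
    rw [Finset.mul_sum]
    refine le_trans (Finset.sum_le_sum (fun a _ => step1 a)) ?_
    rw [← Finset.mul_sum, Finset.sum_add_distrib]
    apply mul_le_mul_of_nonneg_left _ hF.le
    have e1 := hb t ht2
    have e2 := hb (-t) (by rw [neg_sq]; exact ht2)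
    linarith
  have hfac : ((2 * m).factorial : ℝ) ≤ (2 * (m : ℝ)) ^ (2 * m) := by
    have := Nat.factorial_le_pow (2 * m)
    exact_mod_cast this
  have hexp : Real.exp m ≤ 3 ^ m := by
    have h3 : Real.exp 1 ≤ 3 := by linarith [Real.exp_one_lt_d9]
    calc Real.exp m = (Real.exp 1) ^ m := by rw [← Real.exp_nat_mul]; simp
      _ ≤ 3 ^ m := pow_le_pow_left₀ (Real.exp_pos _).le h3 m
  have htm : t ^ (2 * m) = (2 * m / k) ^ m := by rw [pow_mul, ht2]
  rw [htm] at step2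
  have hq : (0 : ℝ) < (2 * m / k) ^ m := by positivity
  have hBk : (0 : ℝ) ≤ (B.card : ℝ) ^ k := by positivity
  have step3 : (2 * (m : ℝ) / k) ^ m * ∑ a ∈ Fintype.piFinset (fun _ : Fin k => B),
      (∑ i, X (a i)) ^ (2 * m) ≤ (2 * m / k) ^ m * (2 * (6 * (m : ℝ) * k) ^ m * (B.card : ℝ) ^ k) := by
    refine le_trans step2 ?_
    have e1 : ((2 * m).factorial : ℝ) * (2 * ((B.card : ℝ) ^ k * Real.exp m)) ≤
        (2 * (m : ℝ)) ^ (2 * m) * (2 * ((B.card : ℝ) ^ k * 3 ^ m)) := by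
      apply mul_le_mul hfac _ (by positivity) (by positivity)
      apply mul_le_mul_of_nonneg_left _ (by norm_num)
      exact mul_le_mul_of_nonneg_left hexp hBk
    refine le_trans e1 (le_of_eq ?_)
    have e2 : (2 * (m : ℝ)) ^ (2 * m) = ((2 * m / k) ^ m) * ((2 * m * k) ^ m) := by
      rw [pow_mul, ← mul_pow]
      congr 1
      field_simp
    rw [e2]
    have e3 : (6 * (m : ℝ) * k) ^ m = (2 * m * k) ^ m * 3 ^ m := by
      rw [← mul_pow]; congr 1; ring
    rw [e3]; ring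
  exact le_of_mul_le_mul_left step3 hq

end Pool.Agent.H149R2
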