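import Mathlib
import Pool.Agent.H149R2.Fourier
import Pool.Agent.H149R2.Moment

set_option autoImplicit false
set_option linter.unusedSectionVars false
set_option linter.unusedSimpArgs false
set_option linter.unusedVariables false

namespace Pool.Agent.H149R2

open Finset

lemma minkowski {ι : Type*} [Fintype ι] (m : ℕ) (hm : 1 ≤ m) (f g : ι → ℝ) (a b : ℝ)
    (ha : 0 ≤ a) (hb : 0 ≤ b) (hf : ∑ i, (f i) ^ (2 * m) ≤ a ^ (2 * m))
    (hg : ∑ i, (g i) ^ (2 * m) ≤ b ^ (2 * m)) :
    ∑ i, (f i + g i) ^ (2 * m) ≤ (a + b) ^ (2 * m) := by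
  have hp : (1 : ℝ) ≤ ((2 * m : ℕ) : ℝ) := by
    have : 1 ≤ 2 * m := by omega
    exact_mod_cast this
  have hn : (2 * m) ≠ 0 := by omega
  have key := Real.Lp_add_le Finset.univ f g hp
  have conv : ∀ v : ι → ℝ, ∑ i, |v i| ^ ((2 * m : ℕ) : ℝ) = ∑ i, (v i) ^ (2 * m) := by
    intro v
    refine Finset.sum_congr rfl (fun i _ => ?_)
    rw [Real.rpow_natCast, pow_mul, pow_mul, sq_abs]
  rw [conv f, conv g, conv (fun i => f i + g i)] at key
  have nonneg : ∀ v : ι → ℝ, 0 ≤ ∑ i, (v i) ^ (2 * m) := by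
    intro v
    refine Finset.sum_nonneg (fun i _ => ?_)
    rw [pow_mul]; positivity
  have root : ∀ (v : ι → ℝ) (c : ℝ), 0 ≤ c → ∑ i, (v i) ^ (2 * m) ≤ c ^ (2 * m) →
      (∑ i, (v i) ^ (2 * m)) ^ (1 / ((2 * m : ℕ) : ℝ)) ≤ c := by
    intro v c hc hv
    calc (∑ i, (v i) ^ (2 * m)) ^ (1 / ((2 * m : ℕ) : ℝ))
        ≤ (c ^ (2 * m)) ^ (1 / ((2 * m : ℕ) : ℝ)) :=
          Real.rpow_le_rpow (nonneg v) hv (by positivity)
      _ = c := by rw [one_div]; exact Real.pow_rpow_inv_natCast hc hn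
  have h1 := root f a ha hf
  have h2 := root g b hb hg
  have h3 : (∑ i, (f i + g i) ^ (2 * m)) ^ (1 / ((2 * m : ℕ) : ℝ)) ≤ a + b :=
    le_trans key (add_le_add h1 h2)
  have h4 : ∑ i, (f i + g i) ^ (2 * m) =
      ((∑ i, (f i + g i) ^ (2 * m)) ^ (1 / ((2 * m : ℕ) : ℝ))) ^ (2 * m) := by
    rw [one_div]; exact (Real.rpow_inv_natCast_pow (nonneg _) hn).symm
  rw [h4]
  exact pow_le_pow_left₀ (Real.rpow_nonneg (nonneg _) _) h3 _

variable {G : Type*} [AddCommGroup G] [Module (ZMod 2) G] [Fintype G] [DecidableEq G]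

/-- indicator function -/
noncomputable def ind (S : Finset G) (x : G) : ℝ := if x ∈ S then 1 else 0

/-- `μ_B * 1_S` -/
noncomputable def gg (B S : Finset G) (x : G) : ℝ := (∑ b ∈ B, ind S (x + b)) / (B.card : ℝ)

/-- `μ_B * μ_B * 1_S` -/
noncomputable def FF (B S : Finset G) (y : G) : ℝ := (∑ b ∈ B, gg B S (b + y)) / (B.card : ℝ)

lemma ind_nonneg (S : Finset G) (x : G) : 0 ≤ ind S x := by
  unfold ind; split_ifs <;> norm_num

lemma ind_le_one (S : Finset G) (x : G) : ind S x ≤ 1 := by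
  unfold ind; split_ifs <;> norm_num

lemma gg_nonneg (B S : Finset G) (x : G) : 0 ≤ gg B S x := by
  unfold gg
  exact div_nonneg (Finset.sum_nonneg (fun _ _ => ind_nonneg _ _)) (by positivity)

lemma gg_le_one (B S : Finset G) (hB : B.Nonempty) (x : G) : gg B S x ≤ 1 := by
  unfold gg
  have h0 : (0 : ℝ) < B.card := by exact_mod_cast hB.card_pos
  rw [div_le_one h0]
  calc ∑ b ∈ B, ind S (x + b) ≤ ∑ b ∈ B, (1 : ℝ) := Finset.sum_le_sum (fun _ _ => ind_le_one _ _)
    _ = _ := by simp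

lemma sum_shift (f : G → ℝ) (t : G) : ∑ x : G, f (x + t) = ∑ x : G, f x :=
  Fintype.sum_equiv (Equiv.addRight t) _ _ (fun _ => rfl)

lemma point_moment (B S : Finset G) (hB : B.Nonempty) (k m : ℕ) (hk : 1 ≤ k) (hm : 1 ≤ m) (x : G) :
    ∑ a ∈ Fintype.piFinset (fun _ : Fin k => B),
      ((∑ i, ind S (x + a i)) - k * gg B S x) ^ (2 * m) ≤
      2 * (6 * (m : ℝ) * k) ^ m * (B.card : ℝ) ^ k := by
  have h0 : (0 : ℝ) < B.card := by exact_mod_cast hB.card_pos
  have h := moment_bound B (fun b => ind S (x + b) - gg B S x)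
    (fun b _ => by
      have := ind_nonneg S (x + b); have := gg_le_one B S hB x; linarith)
    (fun b _ => by
      have := ind_le_one S (x + b); have := gg_nonneg B S x; linarith)
    (by
      rw [Finset.sum_sub_distrib, Finset.sum_const, nsmul_eq_mul, gg]
      field_simp
      ring) k m hk hm
  refine le_trans (le_of_eq ?_) h
  refine Finset.sum_congr rfl (fun a _ => ?_)
  rw [Finset.sum_sub_distrib, Finset.sum_const, Finset.card_univ, Fintype.card_fin, nsmul_eq_mul]

theorem almost_periods (B S : Finset G) (hB : B.Nonempty) (k m : ℕ) (hk : 1 ≤ k) (hm : 1 ≤ m) :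
    ∃ U : Finset G, U.Nonempty ∧
      (B.card : ℝ) ^ k * Fintype.card G ≤ 2 * U.card * (Fintype.card G : ℝ) ^ k ∧
      ∀ (L : ℕ) (u : Fin L → G), (∀ i, u i ∈ U) → ∀ y : G,
        (k * (FF B S (y + ∑ i, u i) - FF B S y)) ^ (2 * m) ≤
          (4 * Fintype.card G / B.card) * (24 * (L : ℝ) ^ 2 * m * k) ^ m := by
  classical
  have hBc : (0 : ℝ) < B.card := by exact_mod_cast hB.card_pos
  set N : ℝ := (Fintype.card G : ℝ) with hN
  have hNpos : 0 < N := by
    rw [hN]; exact_mod_cast Fintype.card_pos_iff.2 ⟨(0 : G)⟩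
  set Q : ℝ := (6 * (m : ℝ) * k) ^ m with hQ
  have hk0 : (0 : ℝ) < k := by exact_mod_cast hk
  have hm0 : (0 : ℝ) < m := by exact_mod_cast hm
  have hQpos : 0 < Q := by rw [hQ]; positivity
  set D : ℝ := 4 * Q * N with hD
  have hDpos : 0 < D := by rw [hD]; positivity
  let err : (Fin k → G) → ℝ := fun a =>
    ∑ x : G, ((∑ i, ind S (x + a i)) - k * gg B S x) ^ (2 * m)
  have herr0 : ∀ a, 0 ≤ err a := by
    intro a
    refine Finset.sum_nonneg (fun x _ => ?_)
    rw [pow_mul]; positivity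
  set P := Fintype.piFinset (fun _ : Fin k => B) with hP
  have hPc : (P.card : ℝ) = (B.card : ℝ) ^ k := by
    rw [hP, Fintype.card_piFinset]; simp
  set GG := P.filter (fun a => err a ≤ D) with hGG
  -- Markov
  have hsum : ∑ a ∈ P, err a ≤ N * (2 * Q * (B.card : ℝ) ^ k) := by
    calc ∑ a ∈ P, err a = ∑ x : G, ∑ a ∈ P, ((∑ i, ind S (x + a i)) - k * gg B S x) ^ (2 * m) :=
          Finset.sum_comm
      _ ≤ ∑ x : G, (2 * Q * (B.card : ℝ) ^ k) :=
          Finset.sum_le_sum (fun x _ => point_moment B S hB k m hk hm x)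
      _ = _ := by rw [Finset.sum_const, Finset.card_univ, nsmul_eq_mul]
  have hbad : D * ((P.filter (fun a => ¬ err a ≤ D)).card : ℝ) ≤
      N * (2 * Q * (B.card : ℝ) ^ k) := by
    refine le_trans ?_ hsum
    calc D * ((P.filter (fun a => ¬ err a ≤ D)).card : ℝ)
        = ∑ a ∈ P.filter (fun a => ¬ err a ≤ D), D := by
          rw [Finset.sum_const, nsmul_eq_mul]; ring
      _ ≤ ∑ a ∈ P.filter (fun a => ¬ err a ≤ D), err a := by
          refine Finset.sum_le_sum (fun a ha => ?_)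
          rw [Finset.mem_filter] at ha
          exact (not_le.1 ha.2).le
      _ ≤ ∑ a ∈ P, err a :=
          Finset.sum_le_sum_of_subset_of_nonneg (Finset.filter_subset _ _) (fun a _ _ => herr0 a)
  have hbad2 : 2 * ((P.filter (fun a => ¬ err a ≤ D)).card : ℝ) ≤ (B.card : ℝ) ^ k := by
    have h1 : D * ((P.filter (fun a => ¬ err a ≤ D)).card : ℝ) =
        (2 * Q * N) * (2 * ((P.filter (fun a => ¬ err a ≤ D)).card : ℝ)) := by rw [hD]; ring
    have h2 : N * (2 * Q * (B.card : ℝ) ^ k) = (2 * Q * N) * (B.card : ℝ) ^ k := by ring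
    rw [h1, h2] at hbad
    exact le_of_mul_le_mul_left hbad (by positivity)
  have hgood : (B.card : ℝ) ^ k ≤ 2 * (GG.card : ℝ) := by
    have h1 : (GG.card : ℝ) + ((P.filter (fun a => ¬ err a ≤ D)).card : ℝ) = (B.card : ℝ) ^ k := by
      rw [← hPc, hGG]
      exact_mod_cast Finset.card_filter_add_card_filter_not (s := P) (fun a => err a ≤ D)
    linarith
  -- pigeonhole
  let T : (Fin k → G) → Finset G := fun z =>
    Finset.univ.filter (fun t => (fun i => z i + t) ∈ GG)
  have hTsum : ∑ z : Fin k → G, ((T z).card : ℝ) = N * GG.card := by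
    have h1 : ∀ z : Fin k → G, ((T z).card : ℝ) =
        ∑ t : G, if (fun i => z i + t) ∈ GG then (1 : ℝ) else 0 := by
      intro z
      simp only [T, Finset.card_filter]
      push_cast
      rfl
    simp_rw [h1]
    rw [Finset.sum_comm]
    have h2 : ∀ t : G, ∑ z : Fin k → G, (if (fun i => z i + t) ∈ GG then (1 : ℝ) else 0) =
        (GG.card : ℝ) := by
      intro t
      have h3 : ∑ z : Fin k → G, (if (fun i => z i + t) ∈ GG then (1 : ℝ) else 0) =
          ∑ z : Fin k → G, (if z ∈ GG then (1 : ℝ) else 0) :=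
        Fintype.sum_equiv (Equiv.addRight (fun _ : Fin k => t)) _ _ (fun z => rfl)
      rw [h3, Finset.sum_ite_mem]
      simp
    simp_rw [h2]
    rw [Finset.sum_const, Finset.card_univ, nsmul_eq_mul]
  obtain ⟨z, hz⟩ : ∃ z : Fin k → G, N * GG.card ≤ ((T z).card : ℝ) * N ^ k := by
    by_contra hcon
    push Not at hcon
    have h1 : ∑ z : Fin k → G, ((T z).card : ℝ) * N ^ k < ∑ z : Fin k → G, N * GG.card :=
      Finset.sum_lt_sum_of_nonempty ⟨fun _ => 0, Finset.mem_univ _⟩ (fun z _ => hcon z)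
    rw [← Finset.sum_mul, hTsum, Finset.sum_const, Finset.card_univ, nsmul_eq_mul] at h1
    have h2 : ((Fintype.card (Fin k → G) : ℕ) : ℝ) = N ^ k := by
      rw [Fintype.card_fun, Fintype.card_fin]; push_cast; rfl
    rw [h2] at h1
    linarith
  have hTcard : (B.card : ℝ) ^ k * N ≤ 2 * (T z).card * N ^ k := by
    calc (B.card : ℝ) ^ k * N ≤ 2 * GG.card * N := mul_le_mul_of_nonneg_right hgood hNpos.le
      _ = 2 * (N * GG.card) := by ring
      _ ≤ 2 * ((T z).card * N ^ k) := by linarith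
      _ = _ := by ring
  have hTne : (T z).Nonempty := by
    rw [Finset.nonempty_iff_ne_empty]
    intro h0
    rw [h0] at hTcard
    simp only [Finset.card_empty, Nat.cast_zero, mul_zero, zero_mul] at hTcard
    have : 0 < (B.card : ℝ) ^ k * N := by positivity
    linarith
  obtain ⟨t0, ht0⟩ := hTne
  -- the constant
  set c0 : ℝ := D ^ (((2 * m : ℕ) : ℝ)⁻¹) with hc0
  have hc0n : 0 ≤ c0 := Real.rpow_nonneg hDpos.le _
  have hc0p : c0 ^ (2 * m) = D := by
    rw [hc0]; exact Real.rpow_inv_natCast_pow hDpos.le (by omega)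
  have hT : ∀ t ∈ T z, ∑ x : G, ((k : ℝ) * gg B S (x + t) - ∑ i, ind S (x + z i)) ^ (2 * m) ≤
      c0 ^ (2 * m) := by
    intro t ht
    simp only [T, Finset.mem_filter, Finset.mem_univ, true_and, hGG] at ht
    have h1 := ht.2
    rw [hc0p]
    refine le_trans (le_of_eq ?_) h1
    simp only [err]
    rw [← sum_shift (fun x => ((∑ i, ind S (x + (z i + t))) - (k : ℝ) * gg B S x) ^ (2 * m)) t]
    refine Finset.sum_congr rfl (fun x _ => ?_)
    have h2 : ∀ i, x + t + (z i + t) = x + z i := by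
      intro i
      calc x + t + (z i + t) = x + z i + (t + t) := by abel
        _ = x + z i := by rw [add_self', add_zero]
    simp_rw [h2]
    rw [pow_mul, pow_mul]
    congr 1
    ring
  have hpair : ∀ t ∈ T z, ∑ x : G, ((k : ℝ) * gg B S (x + (t0 + t)) - (k : ℝ) * gg B S x) ^ (2 * m)
      ≤ (2 * c0) ^ (2 * m) := by
    intro t ht
    have h1 := hT t ht
    have h2 := hT t0 ht0
    have h2' : ∑ x : G, ((∑ i, ind S (x + z i)) - (k : ℝ) * gg B S (x + t0)) ^ (2 * m) ≤
        c0 ^ (2 * m) := by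
      refine le_trans (le_of_eq ?_) h2
      refine Finset.sum_congr rfl (fun x _ => ?_)
      rw [pow_mul, pow_mul]; congr 1; ring
    have h3 := minkowski m hm _ _ c0 c0 hc0n hc0n h1 h2'
    have h5 : (2 * c0) = c0 + c0 := by ring
    rw [h5]
    refine le_trans (le_of_eq ?_) h3
    rw [← sum_shift (fun x =>
      ((k : ℝ) * gg B S (x + (t0 + t)) - (k : ℝ) * gg B S x) ^ (2 * m)) t0]
    refine Finset.sum_congr rfl (fun x _ => ?_)
    have h4 : x + t0 + (t0 + t) = x + t := by
      calc x + t0 + (t0 + t) = x + t + (t0 + t0) := by abel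
        _ = x + t := by rw [add_self', add_zero]
    rw [h4]
    congr 1
    ring
  set U : Finset G := (T z).image (fun t => t0 + t) with hU
  have hUc : U.card = (T z).card := Finset.card_image_of_injective _ (add_right_injective t0)
  have hUp : ∀ u ∈ U, ∑ x : G, ((k : ℝ) * gg B S (x + u) - (k : ℝ) * gg B S x) ^ (2 * m)
      ≤ (2 * c0) ^ (2 * m) := by
    intro u hu
    rw [hU, Finset.mem_image] at hu
    obtain ⟨t, ht, rfl⟩ := hu
    exact hpair t ht
  have hmany : ∀ (L : ℕ) (u : Fin L → G), (∀ i, u i ∈ U) →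
      ∑ x : G, ((k : ℝ) * gg B S (x + ∑ i, u i) - (k : ℝ) * gg B S x) ^ (2 * m)
        ≤ (L * (2 * c0)) ^ (2 * m) := by
    intro L
    induction L with
    | zero =>
      intro u _
      have hne : 2 * m ≠ 0 := by omega
      simp [Finset.sum_const, zero_pow hne]
    | succ L ih =>
      intro u hu
      have h1 := ih (fun i => u i.castSucc) (fun i => hu _)
      have h2 := hUp (u (Fin.last L)) (hu _)
      have h3 : ∑ x : G, ((k : ℝ) * gg B S ((x + ∑ i : Fin L, u i.castSucc) + u (Fin.last L)) -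
          (k : ℝ) * gg B S (x + ∑ i : Fin L, u i.castSucc)) ^ (2 * m) ≤ (2 * c0) ^ (2 * m) := by
        rw [sum_shift (fun x => ((k : ℝ) * gg B S (x + u (Fin.last L)) -
          (k : ℝ) * gg B S x) ^ (2 * m)) (∑ i : Fin L, u i.castSucc)]
        exact h2
      have h4 := minkowski m hm _ _ _ _ (by positivity) (by positivity) h3 h1
      refine le_trans (le_of_eq ?_) (le_trans h4 (le_of_eq ?_))
      · refine Finset.sum_congr rfl (fun x _ => ?_)
        rw [Fin.sum_univ_castSucc, ← add_assoc]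
        congr 1
        ring
      · congr 1
        push_cast
        ring
  refine ⟨U, ?_, ?_, ?_⟩
  · rw [hU]; exact ⟨_, Finset.mem_image_of_mem _ ht0⟩
  · rw [hUc]; exact hTcard
  · intro L u hu y
    have h1 := hmany L u hu
    have h2 : (k : ℝ) * (FF B S (y + ∑ i, u i) - FF B S y) =
        ∑ b ∈ B, (1 / (B.card : ℝ)) *
          ((k : ℝ) * gg B S (b + (y + ∑ i, u i)) - (k : ℝ) * gg B S (b + y)) := by
      unfold FF
      rw [← Finset.mul_sum, Finset.sum_sub_distrib, ← Finset.mul_sum, ← Finset.mul_sum]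
      field_simp
    rw [h2]
    have h3 := Real.pow_arith_mean_le_arith_mean_pow_of_even B (fun _ => 1 / (B.card : ℝ))
      (fun b => (k : ℝ) * gg B S (b + (y + ∑ i, u i)) - (k : ℝ) * gg B S (b + y))
      (fun _ _ => by positivity)
      (by rw [Finset.sum_const, nsmul_eq_mul]; field_simp) (even_two_mul m)
    refine le_trans h3 ?_
    rw [← Finset.mul_sum]
    have h4 : ∑ b ∈ B, ((k : ℝ) * gg B S (b + (y + ∑ i, u i)) - (k : ℝ) * gg B S (b + y)) ^ (2 * m)
        ≤ ∑ x : G, ((k : ℝ) * gg B S (x + ∑ i, u i) - (k : ℝ) * gg B S x) ^ (2 * m) := by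
      rw [← sum_shift (fun x => ((k : ℝ) * gg B S (x + ∑ i, u i) -
        (k : ℝ) * gg B S x) ^ (2 * m)) y]
      refine le_trans (le_of_eq ?_) (Finset.sum_le_sum_of_subset_of_nonneg (Finset.subset_univ B)
        (fun x _ _ => by rw [pow_mul]; positivity))
      refine Finset.sum_congr rfl (fun x _ => ?_)
      rw [add_assoc]
    calc 1 / (B.card : ℝ) * ∑ b ∈ B, ((k : ℝ) * gg B S (b + (y + ∑ i, u i)) -
          (k : ℝ) * gg B S (b + y)) ^ (2 * m)
        ≤ 1 / (B.card : ℝ) * (L * (2 * c0)) ^ (2 * m) :=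
          mul_le_mul_of_nonneg_left (le_trans h4 h1) (by positivity)
      _ = (4 * N / B.card) * (24 * (L : ℝ) ^ 2 * m * k) ^ m := by
          have e1 : (L * (2 * c0)) ^ (2 * m) = (4 * (L : ℝ) ^ 2) ^ m * D := by
            rw [← mul_assoc, mul_pow, hc0p, pow_mul]
            congr 2
            ring
          have e2 : (24 * (L : ℝ) ^ 2 * m * k) ^ m = (4 * (L : ℝ) ^ 2) ^ m * Q := by
            rw [hQ, ← mul_pow]; congr 1; ring
          rw [e1, e2, hD]
          ring

end Pool.Agent.H149R2
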