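import Mathlib
import Pool.Agent.H149R2.Fourier
import Pool.Agent.H149R2.Chang
import Pool.Agent.H149R2.Periods

set_option autoImplicit false
set_option linter.unusedSectionVars false
set_option linter.unusedSimpArgs false
set_option linter.unusedVariables false

namespace Pool.Agent.H149R2

open Finset

variable {G : Type*} [AddCommGroup G] [Module (ZMod 2) G] [Fintype G] [DecidableEq G]

lemma FF_eq (B S : Finset G) (y : G) :
    FF B S y = (∑ b ∈ B, ∑ b' ∈ B, ind S (b + b' + y)) / (B.card : ℝ) ^ 2 := by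
  unfold FF gg
  rw [← Finset.sum_div, div_div, ← sq]
  congr 1
  refine Finset.sum_congr rfl (fun b _ => Finset.sum_congr rfl (fun b' _ => ?_))
  congr 1
  abel

lemma FF_fourier (B S : Finset G) (y : G) :
    FF B S y = (∑ φ : Module.Dual (ZMod 2) G, (ft B φ) ^ 2 * ft S φ * sgn (φ y)) /
      ((Fintype.card G : ℝ) * (B.card : ℝ) ^ 2) := by
  have hN : (0 : ℝ) < (Fintype.card G : ℝ) := by
    exact_mod_cast Fintype.card_pos_iff.2 ⟨(0 : G)⟩
  have h1 : ∑ φ : Module.Dual (ZMod 2) G, (ft B φ) ^ 2 * ft S φ * sgn (φ y) =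
      (Fintype.card G : ℝ) * ∑ b ∈ B, ∑ b' ∈ B, ind S (b + b' + y) := by
    have h2 : ∀ φ : Module.Dual (ZMod 2) G, (ft B φ) ^ 2 * ft S φ * sgn (φ y) =
        ∑ b ∈ B, ∑ b' ∈ B, ∑ s ∈ S, sgn (φ (b + b' + y + s)) := by
      intro φ
      unfold ft
      rw [sq, Finset.sum_mul_sum, Finset.sum_mul, Finset.sum_mul]
      refine Finset.sum_congr rfl (fun b _ => ?_)
      rw [Finset.sum_mul, Finset.sum_mul]
      refine Finset.sum_congr rfl (fun b' _ => ?_)
      rw [Finset.mul_sum, Finset.sum_mul]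
      refine Finset.sum_congr rfl (fun s _ => ?_)
      rw [map_add, map_add, map_add, sgn_add, sgn_add, sgn_add]
      ring
    simp_rw [h2]
    rw [Finset.sum_comm, Finset.mul_sum]
    refine Finset.sum_congr rfl (fun b _ => ?_)
    rw [Finset.sum_comm, Finset.mul_sum]
    refine Finset.sum_congr rfl (fun b' _ => ?_)
    rw [Finset.sum_comm]
    have h3 : ∀ s ∈ S, ∑ φ : Module.Dual (ZMod 2) G, sgn (φ (b + b' + y + s)) =
        if s = b + b' + y then (Fintype.card G : ℝ) else 0 := by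
      intro s _
      rw [sum_dual_sgn]
      have : b + b' + y + s = 0 ↔ s = b + b' + y := by
        rw [add_eq_zero_iff']; exact eq_comm
      simp only [this]
    rw [Finset.sum_congr rfl h3, Finset.sum_ite_eq']
    unfold ind
    split_ifs <;> simp
  rw [h1, FF_eq]
  field_simp

lemma sum_piFinset_sgn (U : Finset G) (L : ℕ) (φ : Module.Dual (ZMod 2) G) :
    ∑ u ∈ Fintype.piFinset (fun _ : Fin L => U), sgn (φ (∑ i, u i)) = (ft U φ) ^ L := by
  have h := Finset.prod_univ_sum (fun _ : Fin L => U) (fun _ b => sgn (φ b))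
  rw [Finset.prod_const, Finset.card_univ, Fintype.card_fin] at h
  unfold ft
  rw [h]
  refine Finset.sum_congr rfl (fun a _ => ?_)
  rw [map_sum, sgn_sum]

/-- comparison of the average of `F` over `U^L` and over `V + U^L` -/
lemma compare (B S U Vf : Finset G) (hB : B.Nonempty) (hU : U.Nonempty) (hVne : Vf.Nonempty)
    (hV : ∀ φ : Module.Dual (ZMod 2) G, (U.card : ℝ) / 2 ≤ |ft U φ| → ∀ v ∈ Vf, φ v = 0)
    (L : ℕ) :
    |(∑ u ∈ Fintype.piFinset (fun _ : Fin L => U), FF B S (∑ i, u i)) / (U.card : ℝ) ^ L -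
      (∑ v ∈ Vf, ∑ u ∈ Fintype.piFinset (fun _ : Fin L => U), FF B S (v + ∑ i, u i)) /
        ((Vf.card : ℝ) * (U.card : ℝ) ^ L)| ≤
      2 * (1 / 2) ^ L * ((Fintype.card G : ℝ) / B.card) := by
  have hN : (0 : ℝ) < (Fintype.card G : ℝ) := by
    exact_mod_cast Fintype.card_pos_iff.2 ⟨(0 : G)⟩
  have hBc : (0 : ℝ) < B.card := by exact_mod_cast hB.card_pos
  have hUc : (0 : ℝ) < U.card := by exact_mod_cast hU.card_pos
  have hVc : (0 : ℝ) < Vf.card := by exact_mod_cast hVne.card_pos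
  set M : ℝ := (Fintype.card G : ℝ) * (B.card : ℝ) ^ 2 with hM
  have hMpos : 0 < M := by positivity
  have e1 : (∑ u ∈ Fintype.piFinset (fun _ : Fin L => U), FF B S (∑ i, u i)) / (U.card : ℝ) ^ L =
      (∑ φ : Module.Dual (ZMod 2) G, (ft B φ) ^ 2 * ft S φ * ((ft U φ) / U.card) ^ L) / M := by
    simp_rw [FF_fourier]
    rw [← Finset.sum_div, Finset.sum_comm, div_div, mul_comm M, ← div_div]
    congr 1
    rw [Finset.sum_div]
    refine Finset.sum_congr rfl (fun φ _ => ?_)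
    rw [← Finset.mul_sum, sum_piFinset_sgn, div_pow]
    ring
  have e2 : (∑ v ∈ Vf, ∑ u ∈ Fintype.piFinset (fun _ : Fin L => U), FF B S (v + ∑ i, u i)) /
        ((Vf.card : ℝ) * (U.card : ℝ) ^ L) =
      (∑ φ : Module.Dual (ZMod 2) G, (ft B φ) ^ 2 * ft S φ * ((ft U φ) / U.card) ^ L *
        (ft Vf φ / Vf.card)) / M := by
    have e3 : ∀ v ∈ Vf, ∑ u ∈ Fintype.piFinset (fun _ : Fin L => U), FF B S (v + ∑ i, u i) =
        (∑ φ : Module.Dual (ZMod 2) G, (ft B φ) ^ 2 * ft S φ * (ft U φ) ^ L * sgn (φ v)) / M := by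
      intro v _
      simp_rw [FF_fourier]
      rw [← Finset.sum_div, Finset.sum_comm]
      congr 1
      refine Finset.sum_congr rfl (fun φ _ => ?_)
      rw [← Finset.mul_sum]
      simp_rw [map_add, sgn_add]
      rw [← Finset.mul_sum]
      have := sum_piFinset_sgn U L φ
      simp_rw [map_sum] at this
      simp_rw [map_sum]
      rw [this]
      ring
    rw [Finset.sum_congr rfl e3, ← Finset.sum_div, Finset.sum_comm, div_div, mul_comm M, ← div_div]
    congr 1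
    rw [Finset.sum_div]
    refine Finset.sum_congr rfl (fun φ _ => ?_)
    rw [← Finset.mul_sum, div_pow]
    unfold ft
    field_simp
  rw [e1, e2, ← sub_div, ← Finset.sum_sub_distrib, abs_div, abs_of_pos hMpos, div_le_iff₀ hMpos]
  refine le_trans (Finset.abs_sum_le_sum_abs _ _) ?_
  have e4 : ∀ φ : Module.Dual (ZMod 2) G,
      |(ft B φ) ^ 2 * ft S φ * ((ft U φ) / U.card) ^ L -
        (ft B φ) ^ 2 * ft S φ * ((ft U φ) / U.card) ^ L * (ft Vf φ / Vf.card)| ≤
      (ft B φ) ^ 2 * ((Fintype.card G : ℝ) * (2 * (1 / 2) ^ L)) := by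
    intro φ
    have f1 : (ft B φ) ^ 2 * ft S φ * ((ft U φ) / U.card) ^ L -
        (ft B φ) ^ 2 * ft S φ * ((ft U φ) / U.card) ^ L * (ft Vf φ / Vf.card) =
        (ft B φ) ^ 2 * (ft S φ * (((ft U φ) / U.card) ^ L * (1 - ft Vf φ / Vf.card))) := by ring
    rw [f1, abs_mul, abs_of_nonneg (sq_nonneg (ft B φ))]
    apply mul_le_mul_of_nonneg_left _ (sq_nonneg _)
    rw [abs_mul]
    have f2 : |ft S φ| ≤ (Fintype.card G : ℝ) := by
      refine le_trans (abs_ft_le S φ) ?_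
      exact_mod_cast Finset.card_le_univ S
    apply mul_le_mul f2 _ (abs_nonneg _) hN.le
    by_cases hφ : (U.card : ℝ) / 2 ≤ |ft U φ|
    · have f3 : ft Vf φ = Vf.card := by
        unfold ft
        rw [Finset.sum_congr rfl (fun v hv => by rw [hV φ hφ v hv, sgn_zero])]
        simp
      rw [f3, div_self hVc.ne', sub_self, mul_zero, abs_zero]
      positivity
    · push Not at hφ
      rw [abs_mul, mul_comm (2 : ℝ)]
      apply mul_le_mul _ _ (abs_nonneg _) (by positivity)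
      · rw [abs_pow]
        apply pow_le_pow_left₀ (abs_nonneg _)
        rw [abs_div, abs_of_pos hUc, div_le_iff₀ hUc]
        linarith
      · have f4 : |ft Vf φ / Vf.card| ≤ 1 := by
          rw [abs_div, abs_of_pos hVc, div_le_one hVc]
          exact abs_ft_le Vf φ
        have := abs_le.1 f4
        rw [abs_le]
        constructor <;> linarith
  refine le_trans (Finset.sum_le_sum (fun φ _ => e4 φ)) (le_of_eq ?_)
  rw [← Finset.sum_mul, sum_ft_sq_zero, hM]
  field_simp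

/-- Sanders/Croot-Sisask: the function `μ_B * μ_B * 1_S` is nearly invariant under a subspace of
small codimension. -/
theorem invariance (B S : Finset G) (hB : B.Nonempty) (b : ℕ)
    (hb : (Fintype.card G : ℝ) ≤ 2 ^ b * B.card) :
    ∃ V : Submodule (ZMod 2) G,
      Module.finrank (ZMod 2) G ≤ Module.finrank (ZMod 2) V +
        8 * (b * (393216 * (b + 7) ^ 2 * (b + 1)) + 1) ∧
      ∀ Vf : Finset G, (∀ v, v ∈ Vf ↔ v ∈ V) →
        FF B S 0 - 3 / 64 ≤ (∑ v ∈ Vf, FF B S v) / Vf.card := by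
  have hN : (0 : ℝ) < (Fintype.card G : ℝ) := by
    exact_mod_cast Fintype.card_pos_iff.2 ⟨(0 : G)⟩
  have hBc : (0 : ℝ) < B.card := by exact_mod_cast hB.card_pos
  obtain ⟨m, hm⟩ : ∃ m : ℕ, m = b + 1 := ⟨_, rfl⟩
  obtain ⟨L, hL⟩ : ∃ L : ℕ, L = b + 7 := ⟨_, rfl⟩
  obtain ⟨k, hk⟩ : ∃ k : ℕ, k = 393216 * (b + 7) ^ 2 * (b + 1) := ⟨_, rfl⟩
  rw [← hk]
  have hk1 : 1 ≤ k := by
    rw [hk]; exact Nat.one_le_iff_ne_zero.2 (by positivity)
  obtain ⟨U, hUne, hUc, hUp⟩ := almost_periods B S hB k m hk1 (by omega)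
  have hUcpos : (0 : ℝ) < U.card := by exact_mod_cast hUne.card_pos
  have hU2 : (Fintype.card G : ℝ) ≤ 2 ^ (b * k + 1) * U.card := by
    have h1 : (Fintype.card G : ℝ) ^ k ≤ 2 ^ (b * k) * (B.card : ℝ) ^ k := by
      rw [pow_mul (2 : ℝ) b k, ← mul_pow]
      exact pow_le_pow_left₀ hN.le hb k
    have h2 : (B.card : ℝ) ^ k * Fintype.card G ≤
        (B.card : ℝ) ^ k * (2 ^ (b * k + 1) * U.card) := by
      calc (B.card : ℝ) ^ k * Fintype.card G ≤ 2 * U.card * (Fintype.card G : ℝ) ^ k := hUc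
        _ ≤ 2 * U.card * (2 ^ (b * k) * (B.card : ℝ) ^ k) :=
            mul_le_mul_of_nonneg_left h1 (by positivity)
        _ = _ := by rw [pow_succ]; ring
    exact le_of_mul_le_mul_left h2 (by positivity)
  obtain ⟨V, hVrank, hVann⟩ := exists_subspace U hUne (b * k + 1) hU2
  refine ⟨V, hVrank, ?_⟩
  intro Vf hVf
  have hVne : Vf.Nonempty := ⟨0, (hVf 0).2 V.zero_mem⟩
  have hVc : (0 : ℝ) < Vf.card := by exact_mod_cast hVne.card_pos
  -- small difference
  have hsmall : ∀ u : Fin L → G, (∀ i, u i ∈ U) → ∀ y : G,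
      |FF B S (y + ∑ i, u i) - FF B S y| ≤ 1 / 64 := by
    intro u hu y
    have h1 := hUp L u hu y
    set Δ := FF B S (y + ∑ i, u i) - FF B S y with hΔ
    have h2 : 4 * (Fintype.card G : ℝ) / B.card ≤ 4 ^ m := by
      rw [div_le_iff₀ hBc]
      calc 4 * (Fintype.card G : ℝ) ≤ 4 * (2 ^ b * B.card) := by linarith
        _ ≤ 4 ^ m * B.card := by
          rw [hm, pow_succ]
          have : (2 : ℝ) ^ b ≤ 4 ^ b := pow_le_pow_left₀ (by norm_num) (by norm_num) b
          nlinarith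
    have hk0 : (0 : ℝ) < k := by exact_mod_cast hk1
    have h3 : ((k : ℝ) * Δ) ^ (2 * m) ≤ (96 * (L : ℝ) ^ 2 * m * k) ^ m := by
      refine le_trans h1 ?_
      calc (4 * (Fintype.card G : ℝ) / B.card) * (24 * (L : ℝ) ^ 2 * m * k) ^ m
          ≤ 4 ^ m * (24 * (L : ℝ) ^ 2 * m * k) ^ m :=
            mul_le_mul_of_nonneg_right h2 (by positivity)
        _ = _ := by rw [← mul_pow]; congr 1; ring
    rw [pow_mul] at h3
    have h4 : ((k : ℝ) * Δ) ^ 2 ≤ 96 * (L : ℝ) ^ 2 * m * k :=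
      le_of_pow_le_pow_left₀ (by omega) (by positivity) h3
    have h5 : (k : ℝ) = 393216 * (L : ℝ) ^ 2 * m := by
      rw [hk, hL, hm]; push_cast; ring
    have h6 : Δ ^ 2 ≤ (1 / 64) ^ 2 := by
      have h7 : (k : ℝ) ^ 2 * Δ ^ 2 ≤ (k : ℝ) ^ 2 * (1 / 64) ^ 2 := by
        calc (k : ℝ) ^ 2 * Δ ^ 2 = ((k : ℝ) * Δ) ^ 2 := by ring
          _ ≤ 96 * (L : ℝ) ^ 2 * m * k := h4
          _ = (k : ℝ) * (393216 * (L : ℝ) ^ 2 * m) * (1 / 64) ^ 2 := by ring
          _ = _ := by rw [← h5]; ring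
      exact le_of_mul_le_mul_left h7 (by positivity)
    exact abs_le_of_sq_le_sq h6 (by norm_num)
  set P := Fintype.piFinset (fun _ : Fin L => U) with hP
  have hPc : (P.card : ℝ) = (U.card : ℝ) ^ L := by
    rw [hP, Fintype.card_piFinset]; simp
  have hPpos : (0 : ℝ) < (U.card : ℝ) ^ L := by positivity
  have hmemP : ∀ u ∈ P, ∀ i, u i ∈ U := fun u hu i => by
    rw [hP, Fintype.mem_piFinset] at hu; exact hu i
  have havg : ∀ y : G, |(∑ u ∈ P, FF B S (y + ∑ i, u i)) / (U.card : ℝ) ^ L - FF B S y| ≤ 1 / 64 := by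
    intro y
    have h1 : (∑ u ∈ P, FF B S (y + ∑ i, u i)) / (U.card : ℝ) ^ L - FF B S y =
        (∑ u ∈ P, (FF B S (y + ∑ i, u i) - FF B S y)) / (U.card : ℝ) ^ L := by
      rw [Finset.sum_sub_distrib, Finset.sum_const, nsmul_eq_mul, hPc, sub_div,
        mul_div_cancel_left₀ _ hPpos.ne']
    rw [h1, abs_div, abs_of_pos hPpos, div_le_iff₀ hPpos]
    refine le_trans (Finset.abs_sum_le_sum_abs _ _) ?_
    refine le_trans (Finset.sum_le_sum (fun u hu => hsmall u (hmemP u hu) y)) ?_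
    rw [Finset.sum_const, nsmul_eq_mul, hPc, mul_comm]
  have hcomp := compare B S U Vf hB hUne hVne (fun φ hφ v hv => hVann φ hφ v ((hVf v).1 hv)) L
  have hcomp2 : 2 * (1 / 2 : ℝ) ^ L * ((Fintype.card G : ℝ) / B.card) ≤ 1 / 64 := by
    have h1 : (Fintype.card G : ℝ) / B.card ≤ 2 ^ b := by
      rw [div_le_iff₀ hBc]; exact hb
    calc 2 * (1 / 2 : ℝ) ^ L * ((Fintype.card G : ℝ) / B.card) ≤ 2 * (1 / 2 : ℝ) ^ L * 2 ^ b :=
          mul_le_mul_of_nonneg_left h1 (by positivity)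
      _ = 1 / 64 := by
          rw [hL, pow_add, mul_assoc, mul_assoc, mul_comm ((1 / 2 : ℝ) ^ 7), ← mul_assoc ((1/2 : ℝ) ^ b),
            ← mul_pow]
          norm_num
  have h0 := havg 0
  simp only [zero_add] at h0
  have hV1 : |(∑ v ∈ Vf, ∑ u ∈ P, FF B S (v + ∑ i, u i)) / ((Vf.card : ℝ) * (U.card : ℝ) ^ L) -
      (∑ v ∈ Vf, FF B S v) / Vf.card| ≤ 1 / 64 := by
    have h1 : (∑ v ∈ Vf, ∑ u ∈ P, FF B S (v + ∑ i, u i)) / ((Vf.card : ℝ) * (U.card : ℝ) ^ L) -
        (∑ v ∈ Vf, FF B S v) / Vf.card =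
        (∑ v ∈ Vf, ((∑ u ∈ P, FF B S (v + ∑ i, u i)) / (U.card : ℝ) ^ L - FF B S v)) / Vf.card := by
      rw [Finset.sum_sub_distrib, sub_div, ← Finset.sum_div, div_div, mul_comm (Vf.card : ℝ)]
    rw [h1, abs_div, abs_of_pos hVc, div_le_iff₀ hVc]
    refine le_trans (Finset.abs_sum_le_sum_abs _ _) ?_
    refine le_trans (Finset.sum_le_sum (fun v _ => havg v)) ?_
    rw [Finset.sum_const, nsmul_eq_mul, mul_comm]
  have a1 := abs_le.1 h0
  have a2 := abs_le.1 hV1
  have a3 := abs_le.1 (le_trans hcomp hcomp2)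
  linarith [a1.1, a1.2, a2.1, a2.2, a3.1, a3.2]

/-- pigeonhole version -/
theorem dense_translate (B S : Finset G) (hB : B.Nonempty) (Vf : Finset G) (hVne : Vf.Nonempty)
    (c : ℝ) (hc : c ≤ (∑ v ∈ Vf, FF B S v) / Vf.card) :
    ∃ x : G, c * Vf.card ≤ ((Vf.filter (fun v => x + v ∈ S)).card : ℝ) := by
  have hBc : (0 : ℝ) < B.card := by exact_mod_cast hB.card_pos
  have hVc : (0 : ℝ) < Vf.card := by exact_mod_cast hVne.card_pos
  by_contra hcon
  push Not at hcon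
  rw [le_div_iff₀ hVc] at hc
  have h1 : ∑ v ∈ Vf, FF B S v =
      (∑ b ∈ B, ∑ b' ∈ B, ((Vf.filter (fun v => b + b' + v ∈ S)).card : ℝ)) / (B.card : ℝ) ^ 2 := by
    simp_rw [FF_eq]
    rw [← Finset.sum_div]
    congr 1
    rw [Finset.sum_comm]
    refine Finset.sum_congr rfl (fun b _ => ?_)
    rw [Finset.sum_comm]
    refine Finset.sum_congr rfl (fun b' _ => ?_)
    rw [Finset.card_filter]
    push_cast
    rfl
  have h2 : ∑ b ∈ B, ∑ b' ∈ B, ((Vf.filter (fun v => b + b' + v ∈ S)).card : ℝ) <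
      (B.card : ℝ) ^ 2 * (c * Vf.card) := by
    calc ∑ b ∈ B, ∑ b' ∈ B, ((Vf.filter (fun v => b + b' + v ∈ S)).card : ℝ)
        < ∑ b ∈ B, ∑ b' ∈ B, c * Vf.card :=
          Finset.sum_lt_sum_of_nonempty hB (fun b _ =>
            Finset.sum_lt_sum_of_nonempty hB (fun b' _ => hcon (b + b')))
      _ = _ := by
          simp only [Finset.sum_const, nsmul_eq_mul]
          ring
  rw [h1] at hc
  rw [le_div_iff₀ (by positivity)] at hc
  linarith

end Pool.Agent.H149R2
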