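import Mathlib
import Pool.Agent.H149R2.Invariance

set_option autoImplicit false
set_option linter.unusedSectionVars false
set_option linter.unusedSimpArgs false
set_option linter.unusedVariables false

namespace Pool.Agent.H149R2

open Finset

variable {G : Type*} [AddCommGroup G] [Module (ZMod 2) G] [Fintype G] [DecidableEq G]

lemma rep_le (A : Finset G) (x : G) : rep A x ≤ A.card := Finset.card_filter_le _ _

lemma rep_eq_sum (A : Finset G) (x : G) :
    (rep A x : ℝ) = ∑ y : G, (if y ∈ A ∧ x + y ∈ A then (1 : ℝ) else 0) := by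
  unfold rep
  rw [Finset.card_filter]
  push_cast
  rw [← Finset.sum_subset (Finset.subset_univ A)]
  · refine Finset.sum_congr rfl (fun y hy => ?_)
    simp [hy]
  · intro y _ hy
    simp [hy]

lemma sum_rep_mul (A : Finset G) (g : G → ℝ) :
    ∑ x : G, (rep A x : ℝ) * g x = ∑ y ∈ A, ∑ z ∈ A, g (y + z) := by
  have h1 : ∀ x : G, (rep A x : ℝ) * g x = ∑ y ∈ A, if x + y ∈ A then g x else 0 := by
    intro x
    unfold rep
    rw [Finset.card_filter]
    push_cast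
    rw [Finset.sum_mul]
    refine Finset.sum_congr rfl (fun y _ => ?_)
    split_ifs <;> simp
  simp_rw [h1]
  rw [Finset.sum_comm]
  refine Finset.sum_congr rfl (fun y _ => ?_)
  rw [← sum_shift _ y]
  have h2 : ∀ x : G, (if x + y + y ∈ A then g (x + y) else 0) = if x ∈ A then g (x + y) else 0 := by
    intro x
    rw [add_assoc, add_self', add_zero]
  simp_rw [h2]
  rw [Finset.sum_ite_mem, Finset.univ_inter]
  refine Finset.sum_congr rfl (fun z _ => ?_)
  rw [add_comm]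

/-- Kelley-Meka: unbalancing. -/
lemma unbalance (A : Finset G) (hA : A.Nonempty) (l : ℕ) (hl : 1 ≤ l)
    (hα : (Fintype.card G : ℝ) ≤ 2 ^ l * A.card)
    (hbad : (Fintype.card G : ℝ) ≤ 2 ^ l * (Finset.univ.filter (fun x : G => rep A x = 0)).card) :
    (Fintype.card G : ℝ) ≤ 2 ^ (2 * l ^ 2 + 2 * l + 1) *
      (Finset.univ.filter (fun x : G => (3 / 2 : ℝ) * (A.card : ℝ) ^ 2 <
        (Fintype.card G : ℝ) * (rep A x : ℝ))).card := by
  set N : ℝ := (Fintype.card G : ℝ) with hN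
  set a : ℝ := (A.card : ℝ) with ha
  have hNpos : 0 < N := by
    rw [hN]; exact_mod_cast Fintype.card_pos_iff.2 ⟨(0 : G)⟩
  have hapos : 0 < a := by rw [ha]; exact_mod_cast hA.card_pos
  set p : ℕ := 2 * l + 1 with hp
  have hpodd : Odd p := ⟨l, rfl⟩
  set f : G → ℝ := fun x => N * (rep A x : ℝ) - a ^ 2 with hf
  set Bad := Finset.univ.filter (fun x : G => rep A x = 0) with hBad
  set Big := Finset.univ.filter (fun x : G => (3 / 2 : ℝ) * a ^ 2 < N * (rep A x : ℝ)) with hBig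
  set Rest := (Finset.univ.filter (fun x : G => ¬ (rep A x = 0))).filter
    (fun x : G => ¬ ((3 / 2 : ℝ) * a ^ 2 < N * (rep A x : ℝ))) with hRest
  have hmom : 0 ≤ ∑ x : G, f x ^ p := moment_nonneg A p
  have hupper : ∑ x : G, f x ^ p ≤ ((Bad.card : ℝ) * (-(a ^ (2 * p)))) +
      (Big.card : ℝ) * (N * a) ^ p + N * ((a ^ 2 / 2) ^ p) := by
    have hpt : ∀ x : G, f x ^ p ≤ (if rep A x = 0 then -(a ^ (2 * p)) else 0) +
        (if (3 / 2 : ℝ) * a ^ 2 < N * (rep A x : ℝ) then (N * a) ^ p else 0) +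
        (a ^ 2 / 2) ^ p := by
      intro x
      have hpos1 : (0 : ℝ) ≤ (a ^ 2 / 2) ^ p := by positivity
      have hpos2 : (0 : ℝ) ≤ (N * a) ^ p := by positivity
      by_cases h0 : rep A x = 0
      · have h1 : f x = -(a ^ 2) := by simp only [hf, h0]; push_cast; ring
        have h2 : ¬ ((3 / 2 : ℝ) * a ^ 2 < N * (rep A x : ℝ)) := by
          rw [h0]; push_cast; rw [mul_zero, not_lt]; positivity
        rw [if_pos h0, if_neg h2, h1, hpodd.neg_pow, ← pow_mul]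
        linarith
      · rw [if_neg h0]
        by_cases h1 : (3 / 2 : ℝ) * a ^ 2 < N * (rep A x : ℝ)
        · rw [if_pos h1]
          have h2 : 0 ≤ f x := by simp only [hf]; nlinarith [sq_nonneg a]
          have h3 : f x ≤ N * a := by
            simp only [hf]
            have : (rep A x : ℝ) ≤ a := by rw [ha]; exact_mod_cast rep_le A x
            nlinarith [sq_nonneg a]
          have h4 := pow_le_pow_left₀ h2 h3 p
          linarith
        · rw [if_neg h1]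
          push Not at h1
          have h3 : f x ≤ a ^ 2 / 2 := by simp only [hf]; linarith
          have h4 : f x ^ p ≤ (a ^ 2 / 2) ^ p := hpodd.strictMono_pow.monotone h3
          linarith
    refine le_trans (Finset.sum_le_sum (fun x _ => hpt x)) (le_of_eq ?_)
    rw [Finset.sum_add_distrib, Finset.sum_add_distrib, Finset.sum_ite, Finset.sum_ite]
    simp only [Finset.sum_const_zero, add_zero, Finset.sum_const, nsmul_eq_mul, Finset.card_univ]
    rfl
  have h1 : (Bad.card : ℝ) * a ^ (2 * p) ≤ (Big.card : ℝ) * (N * a) ^ p + N * ((a ^ 2 / 2) ^ p) := by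
    linarith
  -- divide by a^(2p)
  have h2 : (a ^ 2 / 2) ^ p = a ^ (2 * p) * (1 / 2) ^ p := by
    rw [div_pow, ← pow_mul, one_div, inv_pow]; ring
  have h3 : (N * a) ^ p ≤ 2 ^ (l * p) * a ^ (2 * p) := by
    calc (N * a) ^ p ≤ ((2 ^ l * a) * a) ^ p :=
          pow_le_pow_left₀ (by positivity) (mul_le_mul_of_nonneg_right hα hapos.le) p
      _ = _ := by rw [mul_assoc, mul_pow, ← pow_mul, ← sq, ← pow_mul]
  have h4 : (Bad.card : ℝ) * a ^ (2 * p) ≤
      ((Big.card : ℝ) * 2 ^ (l * p) + N * (1 / 2) ^ p) * a ^ (2 * p) := by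
    refine le_trans h1 ?_
    rw [h2, add_mul]
    have : (Big.card : ℝ) * (N * a) ^ p ≤ (Big.card : ℝ) * 2 ^ (l * p) * a ^ (2 * p) := by
      rw [mul_assoc]; exact mul_le_mul_of_nonneg_left h3 (by positivity)
    linarith
  have h5 : (Bad.card : ℝ) ≤ (Big.card : ℝ) * 2 ^ (l * p) + N * (1 / 2) ^ p :=
    le_of_mul_le_mul_right h4 (by positivity)
  have h6 : N ≤ 2 ^ l * ((Big.card : ℝ) * 2 ^ (l * p)) + N * (1 / 2) := by
    have h7 : (2 : ℝ) ^ l * (N * (1 / 2) ^ p) ≤ N * (1 / 2) := by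
      have h8 : (2 : ℝ) ^ l * (1 / 2) ^ p = (1 / 2) ^ (l + 1) := by
        rw [hp, show 2 * l + 1 = l + (l + 1) by ring, pow_add (1 / 2 : ℝ) l, ← mul_assoc, ← mul_pow]
        norm_num
      have h9 : (1 / 2 : ℝ) ^ (l + 1) ≤ 1 / 2 := by
        rw [pow_succ]
        have : (1 / 2 : ℝ) ^ l ≤ 1 := pow_le_one₀ (by norm_num) (by norm_num)
        linarith
      calc (2 : ℝ) ^ l * (N * (1 / 2) ^ p) = N * ((2 : ℝ) ^ l * (1 / 2) ^ p) := by ring
        _ ≤ N * (1 / 2) := by rw [h8]; exact mul_le_mul_of_nonneg_left h9 hNpos.le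
    calc N ≤ 2 ^ l * (Bad.card : ℝ) := hbad
      _ ≤ 2 ^ l * ((Big.card : ℝ) * 2 ^ (l * p) + N * (1 / 2) ^ p) :=
          mul_le_mul_of_nonneg_left h5 (by positivity)
      _ = 2 ^ l * ((Big.card : ℝ) * 2 ^ (l * p)) + 2 ^ l * (N * (1 / 2) ^ p) := by ring
      _ ≤ _ := by linarith
  have h10 : (2 : ℝ) ^ (2 * l ^ 2 + 2 * l + 1) = 2 * (2 ^ l * 2 ^ (l * p)) := by
    rw [← pow_add, ← pow_succ']
    congr 1
    rw [hp]; ring
  rw [h10]
  nlinarith

/-- the sifted set -/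
def sift (A : Finset G) {q : ℕ} (s : Fin q → G) : Finset G :=
  Finset.univ.filter (fun y => ∀ i, y + s i ∈ A)

lemma sum_sift_rep (A : Finset G) (q : ℕ) (x : G) :
    ∑ s : Fin q → G, (rep (sift A s) x : ℝ) = (Fintype.card G : ℝ) * (rep A x : ℝ) ^ q := by
  classical
  have h1 : ∀ s : Fin q → G, (rep (sift A s) x : ℝ) =
      ∑ y : G, ∏ i, (if y + s i ∈ A ∧ x + (y + s i) ∈ A then (1 : ℝ) else 0) := by
    intro s
    rw [rep_eq_sum]
    refine Finset.sum_congr rfl (fun y _ => ?_)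
    rw [Finset.prod_ite_zero]
    simp only [sift, Finset.mem_filter, Finset.mem_univ, true_and, Finset.prod_const_one,
      forall_const]
    congr 1
    rw [eq_iff_iff]
    constructor
    · rintro ⟨h, h'⟩ i
      exact ⟨h i, by rw [← add_assoc]; exact h' i⟩
    · intro h
      exact ⟨fun i => (h i).1, fun i => by rw [add_assoc]; exact (h i).2⟩
  simp_rw [h1]
  rw [Finset.sum_comm]
  have h2 : ∀ y : G, ∑ s : Fin q → G,
      ∏ i, (if y + s i ∈ A ∧ x + (y + s i) ∈ A then (1 : ℝ) else 0) = (rep A x : ℝ) ^ q := by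
    intro y
    have h3 := Finset.prod_univ_sum (fun _ : Fin q => (Finset.univ : Finset G))
      (fun _ t => if y + t ∈ A ∧ x + (y + t) ∈ A then (1 : ℝ) else 0)
    rw [Finset.prod_const, Finset.card_univ, Fintype.card_fin, Fintype.piFinset_univ] at h3
    rw [← h3]
    congr 1
    rw [rep_eq_sum]
    rw [← sum_shift (fun t => if t ∈ A ∧ x + t ∈ A then (1 : ℝ) else 0) y]
    refine Finset.sum_congr rfl (fun t _ => ?_)
    rw [add_comm t y]
  simp_rw [h2]
  rw [Finset.sum_const, Finset.card_univ, nsmul_eq_mul]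

lemma sum_rep (A : Finset G) : ∑ x : G, (rep A x : ℝ) = (A.card : ℝ) ^ 2 := by
  have := sum_rep_mul A (fun _ => 1)
  simp only [mul_one, Finset.sum_const, nsmul_eq_mul] at this
  rw [this]; ring

lemma numeric1 (l : ℕ) (hl : 1 ≤ l) :
    (5 / 4 : ℝ) ^ (44 * l ^ 2) * (64 * 2 ^ (2 * l ^ 2 + 2 * l + 1)) ≤ (3 / 2 : ℝ) ^ (44 * l ^ 2) := by
  have h1 : (64 : ℝ) * 2 ^ (2 * l ^ 2 + 2 * l + 1) = 2 ^ (2 * l ^ 2 + 2 * l + 7) := by
    rw [show 2 * l ^ 2 + 2 * l + 7 = 6 + (2 * l ^ 2 + 2 * l + 1) by ring, pow_add (2 : ℝ) 6]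
    norm_num
  have h2 : 2 * l ^ 2 + 2 * l + 7 ≤ 11 * l ^ 2 := by nlinarith
  have h3 : (2 : ℝ) ^ (2 * l ^ 2 + 2 * l + 7) ≤ (6 / 5 : ℝ) ^ (44 * l ^ 2) := by
    calc (2 : ℝ) ^ (2 * l ^ 2 + 2 * l + 7) ≤ 2 ^ (11 * l ^ 2) :=
          pow_le_pow_right₀ (by norm_num) h2
      _ ≤ ((6 / 5 : ℝ) ^ 4) ^ (11 * l ^ 2) := pow_le_pow_left₀ (by norm_num) (by norm_num) _
      _ = _ := by rw [← pow_mul]; congr 1; ring
  rw [h1]
  calc (5 / 4 : ℝ) ^ (44 * l ^ 2) * 2 ^ (2 * l ^ 2 + 2 * l + 7)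
      ≤ (5 / 4 : ℝ) ^ (44 * l ^ 2) * (6 / 5 : ℝ) ^ (44 * l ^ 2) :=
        mul_le_mul_of_nonneg_left h3 (by positivity)
    _ = _ := by rw [← mul_pow]; norm_num

/-- Kelley-Meka: sifting. -/
lemma sifting (A : Finset G) (hA : A.Nonempty) (l : ℕ) (hl : 1 ≤ l)
    (hα : (Fintype.card G : ℝ) ≤ 2 ^ l * A.card)
    (hbig : (Fintype.card G : ℝ) ≤ 2 ^ (2 * l ^ 2 + 2 * l + 1) *
      (Finset.univ.filter (fun x : G => (3 / 2 : ℝ) * (A.card : ℝ) ^ 2 <
        (Fintype.card G : ℝ) * (rep A x : ℝ))).card) (S : Finset G)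
    (hS : ∀ x, x ∈ S ↔ (5 / 4 : ℝ) * (A.card : ℝ) ^ 2 < (Fintype.card G : ℝ) * (rep A x : ℝ)) :
    ∃ B : Finset G, B.Nonempty ∧ (Fintype.card G : ℝ) ≤ 2 ^ (44 * l ^ 3 + 1) * B.card ∧
      1 - 1 / 32 ≤ FF B S 0 := by
  classical
  set N : ℝ := (Fintype.card G : ℝ) with hN
  set a : ℝ := (A.card : ℝ) with ha
  have hNpos : 0 < N := by
    rw [hN]; exact_mod_cast Fintype.card_pos_iff.2 ⟨(0 : G)⟩
  have hapos : 0 < a := by rw [ha]; exact_mod_cast hA.card_pos
  obtain ⟨q, hq⟩ : ∃ q : ℕ, q = 44 * l ^ 2 := ⟨_, rfl⟩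
  set Big := Finset.univ.filter (fun x : G => (3 / 2 : ℝ) * a ^ 2 < N * (rep A x : ℝ)) with hBig
  set M : ℝ := ∑ x : G, (N * (rep A x : ℝ)) ^ q with hM
  have hM1 : (Big.card : ℝ) * ((3 / 2) * a ^ 2) ^ q ≤ M := by
    calc (Big.card : ℝ) * ((3 / 2) * a ^ 2) ^ q = ∑ x ∈ Big, ((3 / 2) * a ^ 2) ^ q := by
          rw [Finset.sum_const, nsmul_eq_mul]
      _ ≤ ∑ x ∈ Big, (N * (rep A x : ℝ)) ^ q := by
          refine Finset.sum_le_sum (fun x hx => ?_)
          rw [hBig, Finset.mem_filter] at hx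
          exact pow_le_pow_left₀ (by positivity) hx.2.le q
      _ ≤ M := Finset.sum_le_sum_of_subset_of_nonneg (Finset.subset_univ _)
          (fun x _ _ => by positivity)
  have hM2 : N * (64 * ((5 / 4) * a ^ 2) ^ q) ≤ M := by
    refine le_trans ?_ hM1
    have h1 : 64 * ((5 / 4) * a ^ 2) ^ q * 2 ^ (2 * l ^ 2 + 2 * l + 1) ≤ ((3 / 2) * a ^ 2) ^ q := by
      rw [mul_pow, mul_pow, hq]
      have := numeric1 l hl
      calc 64 * ((5 / 4 : ℝ) ^ (44 * l ^ 2) * (a ^ 2) ^ (44 * l ^ 2)) * 2 ^ (2 * l ^ 2 + 2 * l + 1)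
          = ((5 / 4 : ℝ) ^ (44 * l ^ 2) * (64 * 2 ^ (2 * l ^ 2 + 2 * l + 1))) *
              (a ^ 2) ^ (44 * l ^ 2) := by ring
        _ ≤ _ := mul_le_mul_of_nonneg_right this (by positivity)
    calc N * (64 * ((5 / 4) * a ^ 2) ^ q)
        ≤ (2 ^ (2 * l ^ 2 + 2 * l + 1) * Big.card) * (64 * ((5 / 4) * a ^ 2) ^ q) :=
          mul_le_mul_of_nonneg_right hbig (by positivity)
      _ = (Big.card : ℝ) * (64 * ((5 / 4) * a ^ 2) ^ q * 2 ^ (2 * l ^ 2 + 2 * l + 1)) := by ring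
      _ ≤ _ := mul_le_mul_of_nonneg_left h1 (by positivity)
  have hMS : ∑ x ∈ Sᶜ, (N * (rep A x : ℝ)) ^ q ≤ M / 64 := by
    have h1 : ∑ x ∈ Sᶜ, (N * (rep A x : ℝ)) ^ q ≤ N * ((5 / 4) * a ^ 2) ^ q := by
      calc ∑ x ∈ Sᶜ, (N * (rep A x : ℝ)) ^ q ≤ ∑ x ∈ Sᶜ, ((5 / 4) * a ^ 2) ^ q := by
            refine Finset.sum_le_sum (fun x hx => ?_)
            rw [Finset.mem_compl, hS, not_lt] at hx
            exact pow_le_pow_left₀ (by positivity) hx q
        _ ≤ ∑ x : G, ((5 / 4) * a ^ 2) ^ q :=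
            Finset.sum_le_sum_of_subset_of_nonneg (Finset.subset_univ _)
              (fun x _ _ => by positivity)
        _ = _ := by rw [Finset.sum_const, Finset.card_univ, nsmul_eq_mul]
    linarith
  -- the two averages
  have hNq : 0 < N ^ q := by positivity
  have havg1 : N ^ q * ∑ s : Fin q → G, ((sift A s).card : ℝ) ^ 2 = N * M := by
    have h1 : ∑ s : Fin q → G, ((sift A s).card : ℝ) ^ 2 =
        ∑ x : G, N * (rep A x : ℝ) ^ q := by
      calc ∑ s : Fin q → G, ((sift A s).card : ℝ) ^ 2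
          = ∑ s : Fin q → G, ∑ x : G, (rep (sift A s) x : ℝ) := by
            refine Finset.sum_congr rfl (fun s _ => ?_)
            rw [sum_rep]
        _ = ∑ x : G, ∑ s : Fin q → G, (rep (sift A s) x : ℝ) := Finset.sum_comm
        _ = _ := Finset.sum_congr rfl (fun x _ => sum_sift_rep A q x)
    rw [h1, ← Finset.mul_sum, hM]
    simp_rw [mul_pow]
    rw [← Finset.mul_sum]
    ring
  have havg2 : N ^ q * ∑ s : Fin q → G, ∑ x ∈ Sᶜ, (rep (sift A s) x : ℝ) =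
      N * ∑ x ∈ Sᶜ, (N * (rep A x : ℝ)) ^ q := by
    rw [Finset.sum_comm, Finset.sum_congr rfl (fun x _ => sum_sift_rep A q x), ← Finset.mul_sum]
    simp_rw [mul_pow]
    rw [← Finset.mul_sum]
    ring
  have hMpos : 0 < M := lt_of_lt_of_le (by positivity) hM2
  obtain ⟨s, hs⟩ : ∃ s : Fin q → G, N * M / 2 ≤
      N ^ q * (((sift A s).card : ℝ) ^ 2 - 32 * ∑ x ∈ Sᶜ, (rep (sift A s) x : ℝ)) * N ^ q := by
    by_contra hcon
    push Not at hcon
    have h1 : ∑ s : Fin q → G,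
        N ^ q * (((sift A s).card : ℝ) ^ 2 - 32 * ∑ x ∈ Sᶜ, (rep (sift A s) x : ℝ)) * N ^ q <
        ∑ s : Fin q → G, N * M / 2 :=
      Finset.sum_lt_sum_of_nonempty ⟨fun _ => 0, Finset.mem_univ _⟩ (fun s _ => hcon s)
    rw [← Finset.sum_mul, ← Finset.mul_sum, Finset.sum_sub_distrib, ← Finset.mul_sum, mul_sub,
      havg1, Finset.sum_const, Finset.card_univ, nsmul_eq_mul] at h1
    have h2 : ((Fintype.card (Fin q → G) : ℕ) : ℝ) = N ^ q := by
      rw [Fintype.card_fun, Fintype.card_fin]; push_cast; rfl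
    rw [h2] at h1
    have h3 : N ^ q * (32 * ∑ s : Fin q → G, ∑ x ∈ Sᶜ, (rep (sift A s) x : ℝ)) ≤ N * M / 2 := by
      calc N ^ q * (32 * ∑ s : Fin q → G, ∑ x ∈ Sᶜ, (rep (sift A s) x : ℝ))
          = 32 * (N ^ q * ∑ s : Fin q → G, ∑ x ∈ Sᶜ, (rep (sift A s) x : ℝ)) := by ring
        _ = 32 * (N * ∑ x ∈ Sᶜ, (N * (rep A x : ℝ)) ^ q) := by rw [havg2]
        _ ≤ 32 * (N * (M / 64)) := by
            have := mul_le_mul_of_nonneg_left hMS hNpos.le
            linarith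
        _ = _ := by ring
    have h4 : N * M / 2 * N ^ q ≤
        (N * M - N ^ q * (32 * ∑ s : Fin q → G, ∑ x ∈ Sᶜ, (rep (sift A s) x : ℝ))) * N ^ q := by
      apply mul_le_mul_of_nonneg_right _ hNq.le
      linarith
    linarith
  set B := sift A s with hB
  have hQ0 : 0 ≤ ∑ x ∈ Sᶜ, (rep B x : ℝ) := Finset.sum_nonneg (fun _ _ => by positivity)
  have hpos : 0 < (B.card : ℝ) ^ 2 - 32 * ∑ x ∈ Sᶜ, (rep B x : ℝ) := by
    by_contra hcon
    push Not at hcon
    have h1 : N ^ q * ((B.card : ℝ) ^ 2 - 32 * ∑ x ∈ Sᶜ, (rep B x : ℝ)) * N ^ q ≤ 0 := by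
      apply mul_nonpos_of_nonpos_of_nonneg _ hNq.le
      exact mul_nonpos_of_nonneg_of_nonpos hNq.le hcon
    have h2 : 0 < N * M / 2 := by positivity
    linarith
  have hBcard2 : 0 < (B.card : ℝ) ^ 2 := by linarith
  have hBne : B.Nonempty := by
    rw [Finset.nonempty_iff_ne_empty]
    intro h0
    rw [h0] at hBcard2
    simp at hBcard2
  have hBc : (0 : ℝ) < B.card := by exact_mod_cast hBne.card_pos
  refine ⟨B, hBne, ?_, ?_⟩
  · -- density
    have h1 : N * M / 2 ≤ N ^ q * (B.card : ℝ) ^ 2 * N ^ q := by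
      refine le_trans hs ?_
      apply mul_le_mul_of_nonneg_right _ hNq.le
      apply mul_le_mul_of_nonneg_left _ hNq.le
      linarith
    have h2 : N * a ^ (2 * q) ≤ M := by
      refine le_trans ?_ hM2
      apply mul_le_mul_of_nonneg_left _ hNpos.le
      have h3 : a ^ (2 * q) ≤ ((5 / 4) * a ^ 2) ^ q := by
        rw [pow_mul]
        exact pow_le_pow_left₀ (by positivity) (by nlinarith [sq_nonneg a]) q
      have h4 : 0 ≤ ((5 / 4) * a ^ 2) ^ q := by positivity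
      linarith
    have h5 : N ^ q ≤ 2 ^ (l * q) * a ^ q := by
      rw [pow_mul, ← mul_pow]
      exact pow_le_pow_left₀ hNpos.le hα q
    have h6 : N ^ 2 * a ^ (2 * q) / 2 ≤ (2 ^ (l * q) * (B.card : ℝ)) ^ 2 * a ^ (2 * q) := by
      calc N ^ 2 * a ^ (2 * q) / 2 = N * (N * a ^ (2 * q)) / 2 := by ring
        _ ≤ N * M / 2 := by
            have := mul_le_mul_of_nonneg_left h2 hNpos.le
            linarith
        _ ≤ N ^ q * (B.card : ℝ) ^ 2 * N ^ q := h1
        _ ≤ (2 ^ (l * q) * a ^ q) * (B.card : ℝ) ^ 2 * (2 ^ (l * q) * a ^ q) := by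
            apply mul_le_mul _ h5 hNq.le (by positivity)
            exact mul_le_mul_of_nonneg_right h5 (by positivity)
        _ = _ := by rw [pow_mul' a 2 q]; ring
    have h7 : N ^ 2 / 2 ≤ (2 ^ (l * q) * (B.card : ℝ)) ^ 2 := by
      have h8 : N ^ 2 / 2 * a ^ (2 * q) ≤ (2 ^ (l * q) * (B.card : ℝ)) ^ 2 * a ^ (2 * q) := by
        calc _ = N ^ 2 * a ^ (2 * q) / 2 := by ring
          _ ≤ _ := h6
      exact le_of_mul_le_mul_right h8 (by positivity)
    have h9 : N ^ 2 ≤ (2 * (2 ^ (l * q) * (B.card : ℝ))) ^ 2 := by nlinarith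
    have h10 : N ≤ 2 * (2 ^ (l * q) * (B.card : ℝ)) := by
      exact le_of_sq_le_sq h9 (by positivity)
    refine le_trans h10 (le_of_eq ?_)
    rw [show 44 * l ^ 3 + 1 = l * q + 1 by rw [hq]; ring, pow_succ]
    ring
  · -- concentration on S
    have h1 : FF B S 0 * (B.card : ℝ) ^ 2 = (B.card : ℝ) ^ 2 - ∑ x ∈ Sᶜ, (rep B x : ℝ) := by
      rw [FF_eq, div_mul_cancel₀ _ hBcard2.ne']
      have h2 : ∑ b ∈ B, ∑ b' ∈ B, ind S (b + b' + 0) = ∑ x : G, (rep B x : ℝ) * ind S x := by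
        rw [sum_rep_mul]
        simp only [add_zero]
      rw [h2, ← sum_rep B, ← Finset.sum_add_sum_compl S (fun x => (rep B x : ℝ)),
        add_sub_cancel_right, ← Finset.sum_subset (Finset.subset_univ S)]
      · refine Finset.sum_congr rfl (fun x hx => ?_)
        simp [ind, hx]
      · intro x _ hx
        simp [ind, hx]
    have h3 : (1 - 1 / 32) * (B.card : ℝ) ^ 2 ≤ FF B S 0 * (B.card : ℝ) ^ 2 := by
      rw [h1]; linarith
    exact le_of_mul_le_mul_right h3 hBcard2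

/-- Density increment. -/
theorem increment (A : Finset G) (hA : A.Nonempty) (l : ℕ) (hl : 1 ≤ l)
    (hα : (Fintype.card G : ℝ) ≤ 2 ^ l * A.card)
    (hbad : (Fintype.card G : ℝ) ≤ 2 ^ l * (Finset.univ.filter (fun x : G => rep A x = 0)).card) :
    ∃ V : Submodule (ZMod 2) G,
      Module.finrank (ZMod 2) G ≤ Module.finrank (ZMod 2) V +
        8 * ((44 * l ^ 3 + 1) * (393216 * (44 * l ^ 3 + 1 + 7) ^ 2 * (44 * l ^ 3 + 1 + 1)) + 1) ∧
      ∀ Vf : Finset G, (∀ v, v ∈ Vf ↔ v ∈ V) → ∃ w : G,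
        (9 / 8 : ℝ) * A.card * Vf.card ≤
          (Fintype.card G : ℝ) * (Vf.filter (fun v => w + v ∈ A)).card := by
  classical
  set N : ℝ := (Fintype.card G : ℝ) with hN
  set a : ℝ := (A.card : ℝ) with ha
  have hNpos : 0 < N := by
    rw [hN]; exact_mod_cast Fintype.card_pos_iff.2 ⟨(0 : G)⟩
  have hapos : 0 < a := by rw [ha]; exact_mod_cast hA.card_pos
  have hbig := unbalance A hA l hl hα hbad
  set S : Finset G := Finset.univ.filter (fun x : G => (5 / 4 : ℝ) * a ^ 2 < N * (rep A x : ℝ))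
    with hS
  obtain ⟨B, hBne, hBN, hBS⟩ := sifting A hA l hl hα hbig S (fun x => by rw [hS]; simp [ha, hN])
  obtain ⟨V, hV1, hV2⟩ := invariance B S hBne (44 * l ^ 3 + 1) hBN
  refine ⟨V, hV1, ?_⟩
  intro Vf hVf
  have hVne : Vf.Nonempty := ⟨0, (hVf 0).2 V.zero_mem⟩
  have hVc : (0 : ℝ) < Vf.card := by exact_mod_cast hVne.card_pos
  have h1 := hV2 Vf hVf
  obtain ⟨x, hx⟩ := dense_translate B S hBne Vf hVne (59 / 64) (by linarith)
  by_contra hcon
  push Not at hcon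
  have h2 : (9 / 8 : ℝ) * a ^ 2 * Vf.card ≤ ∑ v ∈ Vf, N * (rep A (x + v) : ℝ) := by
    calc (9 / 8 : ℝ) * a ^ 2 * Vf.card ≤ (5 / 4 : ℝ) * a ^ 2 * (59 / 64 * Vf.card) := by
          have : 0 ≤ a ^ 2 * Vf.card := by positivity
          nlinarith
      _ ≤ (5 / 4 : ℝ) * a ^ 2 * ((Vf.filter (fun v => x + v ∈ S)).card : ℝ) :=
          mul_le_mul_of_nonneg_left hx (by positivity)
      _ = ∑ v ∈ Vf.filter (fun v => x + v ∈ S), (5 / 4 : ℝ) * a ^ 2 := by
          rw [Finset.sum_const, nsmul_eq_mul]; ring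
      _ ≤ ∑ v ∈ Vf.filter (fun v => x + v ∈ S), N * (rep A (x + v) : ℝ) := by
          refine Finset.sum_le_sum (fun v hv => ?_)
          rw [Finset.mem_filter] at hv
          have := hv.2
          rw [hS, Finset.mem_filter] at this
          exact this.2.le
      _ ≤ _ := Finset.sum_le_sum_of_subset_of_nonneg (Finset.filter_subset _ _)
          (fun v _ _ => by positivity)
  have h3 : ∑ v ∈ Vf, N * (rep A (x + v) : ℝ) =
      ∑ y ∈ A, N * ((Vf.filter (fun v => (x + y) + v ∈ A)).card : ℝ) := by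
    have h4 : ∀ v ∈ Vf, N * (rep A (x + v) : ℝ) =
        ∑ y ∈ A, N * (if (x + y) + v ∈ A then (1 : ℝ) else 0) := by
      intro v _
      unfold rep
      rw [Finset.card_filter]
      push_cast
      rw [Finset.mul_sum]
      refine Finset.sum_congr rfl (fun y _ => ?_)
      have : x + v + y = x + y + v := by abel
      rw [this]
    rw [Finset.sum_congr rfl h4, Finset.sum_comm]
    refine Finset.sum_congr rfl (fun y _ => ?_)
    rw [← Finset.mul_sum, Finset.card_filter]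
    push_cast
    rfl
  have h5 : ∑ y ∈ A, N * ((Vf.filter (fun v => (x + y) + v ∈ A)).card : ℝ) <
      ∑ y ∈ A, (9 / 8 : ℝ) * a * Vf.card :=
    Finset.sum_lt_sum_of_nonempty hA (fun y _ => hcon (x + y))
  rw [Finset.sum_const, nsmul_eq_mul] at h5
  have h6 : a * ((9 / 8 : ℝ) * a * Vf.card) = (9 / 8 : ℝ) * a ^ 2 * Vf.card := by ring
  rw [← ha, h6] at h5
  linarith

end Pool.Agent.H149R2
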