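import Mathlib
import Pool.Agent.H149R2.Increment

set_option autoImplicit false
set_option linter.unusedSectionVars false
set_option linter.unusedSimpArgs false
set_option linter.unusedVariables false

open Pointwise

namespace Pool.Agent.H149R2

open Finset

/-- codimension cost of one step -/
def cost (l : ℕ) : ℕ :=
  8 * ((44 * l ^ 3 + 1) * (393216 * (44 * l ^ 3 + 1 + 7) ^ 2 * (44 * l ^ 3 + 1 + 1)) + 1)

section

variable {n : ℕ}

/-- points of `V` in the translate of `A` -/
noncomputable def slice (A : Finset (Fin n → ZMod 2)) (V : Submodule (ZMod 2) (Fin n → ZMod 2))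
    (w : Fin n → ZMod 2) : Finset V :=
  by classical exact Finset.univ.filter (fun v : V => w + (v : Fin n → ZMod 2) ∈ A)

lemma mem_slice (A : Finset (Fin n → ZMod 2)) (V : Submodule (ZMod 2) (Fin n → ZMod 2))
    (w : Fin n → ZMod 2) (v : V) : v ∈ slice A V w ↔ w + (v : Fin n → ZMod 2) ∈ A := by
  classical
  simp [slice]

/-- the conclusion -/
def Good (A : Finset (Fin n → ZMod 2)) (ε : ℝ) (d : ℕ) : Prop :=
  ∃ V : Submodule (ZMod 2) (Fin n → ZMod 2), n ≤ Module.finrank (ZMod 2) V + d ∧
    (1 - ε) * (Nat.card V : ℝ) ≤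
      ((((A + A : Finset (Fin n → ZMod 2)) : Set (Fin n → ZMod 2)) ∩
                    (V : Set (Fin n → ZMod 2))).ncard : ℝ)

lemma good_mono (A : Finset (Fin n → ZMod 2)) (ε : ℝ) {d d' : ℕ} (h : d ≤ d') (hg : Good A ε d) :
    Good A ε d' := by
  obtain ⟨V, h1, h2⟩ := hg
  exact ⟨V, by omega, h2⟩

/-- stop condition -/
lemma stop (A : Finset (Fin n → ZMod 2)) (ε : ℝ) (l : ℕ) (hε : 1 ≤ 2 ^ l * ε)
    (V : Submodule (ZMod 2) (Fin n → ZMod 2)) (w : Fin n → ZMod 2) [DecidableEq V] [Fintype V]
    (h : 2 ^ l * ((Finset.univ.filter (fun x : V => rep (slice A V w) x = 0)).card : ℝ) <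
      (Fintype.card V : ℝ)) :
    (1 - ε) * (Nat.card V : ℝ) ≤
      ((((A + A : Finset (Fin n → ZMod 2)) : Set (Fin n → ZMod 2)) ∩
                    (V : Set (Fin n → ZMod 2))).ncard : ℝ) := by
  classical
  set Bad := Finset.univ.filter (fun x : V => rep (slice A V w) x = 0) with hBad
  set Ok := Finset.univ.filter (fun x : V => ¬ rep (slice A V w) x = 0) with hOk
  have h1 : Bad.card + Ok.card = Fintype.card V := by
    rw [hBad, hOk, ← Finset.card_univ]
    exact Finset.card_filter_add_card_filter_not (fun x : V => rep (slice A V w) x = 0)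
  have h2 : Ok.card ≤ (((A + A : Finset (Fin n → ZMod 2)) : Set (Fin n → ZMod 2)) ∩
                    (V : Set (Fin n → ZMod 2))).ncard := by
    have h3 : ((Ok.image (fun x : V => (x : Fin n → ZMod 2))) : Set (Fin n → ZMod 2)) ⊆
        (((A + A : Finset (Fin n → ZMod 2)) : Set (Fin n → ZMod 2)) ∩
                    (V : Set (Fin n → ZMod 2))) := by
      intro y hy
      rw [Finset.mem_coe, Finset.mem_image] at hy
      obtain ⟨x, hx, rfl⟩ := hy
      rw [hOk, Finset.mem_filter] at hx
      have h4 := hx.2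
      rw [rep, Finset.card_eq_zero] at h4
      obtain ⟨y, hy⟩ := Finset.nonempty_iff_ne_empty.2 h4
      rw [Finset.mem_filter, mem_slice, mem_slice] at hy
      refine ⟨?_, x.2⟩
      rw [Finset.mem_coe, Finset.mem_add]
      refine ⟨_, hy.1, _, hy.2, ?_⟩
      push_cast
      calc w + (y : Fin n → ZMod 2) + (w + ((x : Fin n → ZMod 2) + (y : Fin n → ZMod 2)))
          = (x : Fin n → ZMod 2) + (w + w) + ((y : Fin n → ZMod 2) + (y : Fin n → ZMod 2)) := by abel
        _ = x := by rw [add_self', add_self', add_zero, add_zero]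
    have h5 := Set.ncard_le_ncard h3 (Set.toFinite _)
    rw [Set.ncard_coe_finset, Finset.card_image_of_injective _ Subtype.val_injective] at h5
    exact h5
  have h3 : (Bad.card : ℝ) ≤ ε * Fintype.card V := by
    have h6 : (0 : ℝ) ≤ (Bad.card : ℝ) := by positivity
    have h7 : (0 : ℝ) < 2 ^ l := by positivity
    have hε0 : 0 < ε := by
      by_contra hc
      push Not at hc
      have : 2 ^ l * ε ≤ 0 := mul_nonpos_of_nonneg_of_nonpos h7.le hc
      linarith
    calc (Bad.card : ℝ) ≤ (2 ^ l * ε) * Bad.card := by nlinarith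
      _ = ε * (2 ^ l * Bad.card) := by ring
      _ ≤ ε * Fintype.card V := mul_le_mul_of_nonneg_left h.le hε0.le
  have h4 : (Bad.card : ℝ) + (Ok.card : ℝ) = (Fintype.card V : ℝ) := by exact_mod_cast h1
  rw [Nat.card_eq_fintype_card]
  have h5 : (Ok.card : ℝ) ≤ ((((A + A : Finset (Fin n → ZMod 2)) : Set (Fin n → ZMod 2)) ∩
                    (V : Set (Fin n → ZMod 2))).ncard : ℝ) := by exact_mod_cast h2
  linarith

lemma algebra_step (N a V b v c dummy : ℝ) (j : ℕ) (ha : 0 ≤ a) (hV : 0 < V) (hb : 0 < b)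
    (hv : 0 ≤ v) (h1 : (9 / 8 : ℝ) ^ j * a * V ≤ N * b) (h2 : (9 / 8 : ℝ) * b * v ≤ V * c) :
    (9 / 8 : ℝ) ^ (j + 1) * a * v ≤ N * c := by
  have hN : 0 ≤ N * b := le_trans (by positivity) h1
  have key : (V * b) * ((9 / 8 : ℝ) ^ (j + 1) * a * v) ≤ (V * b) * (N * c) := by
    calc (V * b) * ((9 / 8 : ℝ) ^ (j + 1) * a * v)
        = ((9 / 8 : ℝ) ^ j * a * V) * ((9 / 8 : ℝ) * b * v) := by rw [pow_succ]; ring
      _ ≤ (N * b) * (V * c) := mul_le_mul h1 h2 (by positivity) hN
      _ = _ := by ring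
  exact le_of_mul_le_mul_left key (by positivity)

lemma iterate (A : Finset (Fin n → ZMod 2)) (hA : A.Nonempty) (ε : ℝ) (l : ℕ) (hl : 1 ≤ l)
    (hε : 1 ≤ 2 ^ l * ε) (hα : (2 : ℝ) ^ n ≤ 2 ^ l * A.card) (j : ℕ) :
    Good A ε (j * cost l) ∨
    ∃ (V : Submodule (ZMod 2) (Fin n → ZMod 2)) (w : Fin n → ZMod 2),
      n ≤ Module.finrank (ZMod 2) V + j * cost l ∧
      (9 / 8 : ℝ) ^ j * A.card * (Nat.card V : ℝ) ≤ 2 ^ n * (slice A V w).card := by
  classical
  have hapos : (0 : ℝ) < A.card := by exact_mod_cast hA.card_pos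
  induction j with
  | zero =>
    right
    refine ⟨⊤, 0, ?_, ?_⟩
    · rw [finrank_top]; simp
    · have h1 : Nat.card (⊤ : Submodule (ZMod 2) (Fin n → ZMod 2)) = 2 ^ n := by
        have : Nat.card (⊤ : Submodule (ZMod 2) (Fin n → ZMod 2)) = Nat.card (Fin n → ZMod 2) :=
          Nat.card_congr (Equiv.subtypeUnivEquiv (fun x => Submodule.mem_top))
        rw [this, Nat.card_eq_fintype_card, Fintype.card_fun, ZMod.card, Fintype.card_fin]
      have h2 : (slice A ⊤ 0).card = A.card := by
        have h3 : (slice A ⊤ 0).image (fun x : (⊤ : Submodule (ZMod 2) (Fin n → ZMod 2)) =>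
            (x : Fin n → ZMod 2)) = A := by
          ext y
          rw [Finset.mem_image]
          constructor
          · rintro ⟨x, hx, rfl⟩
            rw [mem_slice, zero_add] at hx
            exact hx
          · intro hy
            exact ⟨⟨y, Submodule.mem_top⟩, by rw [mem_slice, zero_add]; exact hy, rfl⟩
        rw [← Finset.card_image_of_injective (slice A ⊤ 0) Subtype.val_injective, h3]
      rw [h1, h2]
      push_cast
      rw [pow_zero, one_mul, mul_comm]
  | succ j ih =>
    rcases ih with hg | ⟨V, w, hV, hd⟩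
    · left
      exact good_mono A ε (Nat.mul_le_mul_right _ (Nat.le_succ j)) hg
    · set As := slice A V w with hAs
      have hVc : (0 : ℝ) < (Fintype.card V : ℝ) := by
        exact_mod_cast Fintype.card_pos_iff.2 ⟨(0 : V)⟩
      rw [Nat.card_eq_fintype_card] at hd
      have h98 : (1 : ℝ) ≤ (9 / 8 : ℝ) ^ j := one_le_pow₀ (by norm_num)
      have hd2 : (A.card : ℝ) * (Fintype.card V : ℝ) ≤ 2 ^ n * As.card := by
        refine le_trans ?_ hd
        have : 0 ≤ (A.card : ℝ) * (Fintype.card V : ℝ) := by positivity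
        nlinarith
      have hAsα : (Fintype.card V : ℝ) ≤ 2 ^ l * As.card := by
        have h1 : (A.card : ℝ) * (Fintype.card V : ℝ) ≤ A.card * (2 ^ l * As.card) := by
          calc (A.card : ℝ) * (Fintype.card V : ℝ) ≤ 2 ^ n * As.card := hd2
            _ ≤ (2 ^ l * A.card) * As.card := mul_le_mul_of_nonneg_right hα (by positivity)
            _ = _ := by ring
        exact le_of_mul_le_mul_left h1 hapos
      have hAspos : (0 : ℝ) < As.card := by
        by_contra hc
        push Not at hc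
        have : (2 : ℝ) ^ l * As.card ≤ 0 := mul_nonpos_of_nonneg_of_nonpos (by positivity) hc
        linarith
      have hAsne : As.Nonempty := by
        rw [← Finset.card_pos]; exact_mod_cast hAspos
      by_cases hstop : 2 ^ l * ((Finset.univ.filter (fun x : V => rep As x = 0)).card : ℝ) <
          (Fintype.card V : ℝ)
      · left
        refine ⟨V, ?_, stop A ε l hε V w hstop⟩
        have : j * cost l ≤ (j + 1) * cost l := Nat.mul_le_mul_right _ (Nat.le_succ j)
        omega
      · right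
        push Not at hstop
        obtain ⟨V', hV'1, hV'2⟩ := increment As hAsne l hl hAsα hstop
        obtain ⟨w', hw'⟩ := hV'2 (Finset.univ.filter (fun v => v ∈ V')) (fun v => by simp)
        refine ⟨V'.map V.subtype, w + w', ?_, ?_⟩
        · have h1 : Module.finrank (ZMod 2) (V'.map V.subtype) = Module.finrank (ZMod 2) V' :=
            (LinearEquiv.finrank_eq (Submodule.equivMapOfInjective V.subtype
              V.injective_subtype V')).symm
          rw [h1]
          have h2 : (j + 1) * cost l = j * cost l + cost l := by ring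
          rw [h2]
          unfold cost at hV ⊢
          omega
        · have hcard1 : (Nat.card (V'.map V.subtype) : ℝ) =
              ((Finset.univ.filter (fun v : V => v ∈ V')).card : ℝ) := by
            have e1 : Nat.card (V'.map V.subtype) = Nat.card V' :=
              (Nat.card_congr (Submodule.equivMapOfInjective V.subtype
                V.injective_subtype V').toEquiv).symm
            rw [e1, Nat.card_eq_fintype_card, Fintype.card_subtype]
          have hcard2 : (slice A (V'.map V.subtype) (w + w')).card =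
              ((Finset.univ.filter (fun v : V => v ∈ V')).filter (fun v => w' + v ∈ As)).card := by
            rw [← Finset.card_image_of_injective (slice A (V'.map V.subtype) (w + w'))
              Subtype.val_injective, ← Finset.card_image_of_injective
              ((Finset.univ.filter (fun v : V => v ∈ V')).filter (fun v => w' + v ∈ As))
              (Subtype.val_injective : Function.Injective (fun v : V => (v : Fin n → ZMod 2)))]
            congr 1
            ext y
            simp only [Finset.mem_image, mem_slice, Finset.mem_filter, Finset.mem_univ, true_and,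
              hAs]
            constructor
            · rintro ⟨x, hx, rfl⟩
              obtain ⟨z, hz, hzx⟩ := Submodule.mem_map.1 x.2
              refine ⟨z, ⟨hz, ?_⟩, ?_⟩
              · push_cast
                rw [← add_assoc]
                have : (z : Fin n → ZMod 2) = x := hzx
                rw [this]
                exact hx
              · exact hzx
            · rintro ⟨z, ⟨hz, hz2⟩, rfl⟩
              refine ⟨⟨z, Submodule.mem_map.2 ⟨z, hz, rfl⟩⟩, ?_, rfl⟩
              push_cast at hz2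
              rw [← add_assoc] at hz2
              exact hz2
          rw [hcard1, hcard2]
          set v1 : ℝ := ((Finset.univ.filter (fun v : V => v ∈ V')).card : ℝ) with hv1
          set c1 : ℝ := (((Finset.univ.filter (fun v : V => v ∈ V')).filter
            (fun v => w' + v ∈ As)).card : ℝ) with hc1
          have hv1n : 0 ≤ v1 := by rw [hv1]; positivity
          have hc1n : 0 ≤ c1 := by rw [hc1]; positivity
          have hw2 : (9 / 8 : ℝ) * As.card * v1 ≤ (Fintype.card V : ℝ) * c1 := by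
            rw [hv1, hc1]; exact hw'
          exact algebra_step _ _ _ _ _ _ 0 j (by positivity) hVc hAspos hv1n hd hw2

lemma good_of (A : Finset (Fin n → ZMod 2)) (hA : A.Nonempty) (ε : ℝ) (l : ℕ) (hl : 1 ≤ l)
    (hε : 1 ≤ 2 ^ l * ε) (hα : (2 : ℝ) ^ n ≤ 2 ^ l * A.card) :
    Good A ε ((6 * l + 1) * cost l) := by
  classical
  have hapos : (0 : ℝ) < A.card := by exact_mod_cast hA.card_pos
  rcases iterate A hA ε l hl hε hα (6 * l + 1) with h | ⟨V, w, _, hd⟩
  · exact h
  · exfalso
    have hVc : (0 : ℝ) < (Nat.card V : ℝ) := by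
      rw [Nat.card_eq_fintype_card]
      exact_mod_cast Fintype.card_pos_iff.2 ⟨(0 : V)⟩
    have h1 : ((slice A V w).card : ℝ) ≤ Nat.card V := by
      rw [Nat.card_eq_fintype_card]
      exact_mod_cast Finset.card_le_univ _
    have h2 : (9 / 8 : ℝ) ^ (6 * l + 1) * A.card * (Nat.card V : ℝ) ≤
        2 ^ l * A.card * (Nat.card V : ℝ) := by
      calc (9 / 8 : ℝ) ^ (6 * l + 1) * A.card * (Nat.card V : ℝ) ≤ 2 ^ n * (slice A V w).card := hd
        _ ≤ 2 ^ n * (Nat.card V : ℝ) := mul_le_mul_of_nonneg_left h1 (by positivity)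
        _ ≤ _ := mul_le_mul_of_nonneg_right hα hVc.le
    have h3 : (9 / 8 : ℝ) ^ (6 * l + 1) ≤ 2 ^ l :=
      le_of_mul_le_mul_right (le_of_mul_le_mul_right h2 hVc) hapos
    have h4 : (2 : ℝ) ^ l ≤ ((9 / 8 : ℝ) ^ 6) ^ l := pow_le_pow_left₀ (by norm_num) (by norm_num) l
    rw [← pow_mul] at h4
    have h5 : (9 / 8 : ℝ) ^ (6 * l) < (9 / 8 : ℝ) ^ (6 * l + 1) :=
      pow_lt_pow_right₀ (by norm_num) (by omega)
    linarith

end

lemma cost_le (l : ℕ) (hl : 1 ≤ l) : (6 * l + 1) * cost l ≤ 140000000000000 * l ^ 13 := by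
  unfold cost
  have h3 : 1 ≤ l ^ 3 := Nat.one_le_pow _ _ hl
  have e1 : 44 * l ^ 3 + 1 ≤ 45 * l ^ 3 := by omega
  have e2 : 44 * l ^ 3 + 1 + 7 ≤ 52 * l ^ 3 := by omega
  have e3 : 44 * l ^ 3 + 1 + 1 ≤ 46 * l ^ 3 := by omega
  have e4 : 6 * l + 1 ≤ 7 * l := by omega
  have e5 : 1 ≤ l ^ 12 := Nat.one_le_pow _ _ hl
  calc (6 * l + 1) * (8 * ((44 * l ^ 3 + 1) *
        (393216 * (44 * l ^ 3 + 1 + 7) ^ 2 * (44 * l ^ 3 + 1 + 1)) + 1))
      ≤ (7 * l) * (8 * ((45 * l ^ 3) * (393216 * (52 * l ^ 3) ^ 2 * (46 * l ^ 3)) + l ^ 12)) := by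
        gcongr
    _ ≤ 140000000000000 * l ^ 13 := by ring_nf; omega

theorem main_theorem :
    ∃ C : ℝ, 0 < C ∧
      ∀ n : ℕ, ∀ A : Finset (Fin n → ZMod 2), A.Nonempty →
        ∀ ε : ℝ, 0 < ε → ε ≤ 1 →
          ∃ V : Submodule (ZMod 2) (Fin n → ZMod 2),
            ((n : ℝ) - (Module.finrank (ZMod 2) V : ℝ)) ≤
                C * (1 + Real.log (1 / (ε * ((A.card : ℝ) / 2 ^ n)))) ^ C ∧
            (1 - ε) * (Nat.card V : ℝ) ≤
                ((((A + A : Finset (Fin n → ZMod 2)) : Set (Fin n → ZMod 2)) ∩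
                    (V : Set (Fin n → ZMod 2))).ncard : ℝ) := by
  refine ⟨2000000000000000000, by norm_num, ?_⟩
  intro n A hA ε hε0 hε1
  have hapos : (0 : ℝ) < A.card := by exact_mod_cast hA.card_pos
  set α : ℝ := (A.card : ℝ) / 2 ^ n with hα
  have hα0 : 0 < α := by positivity
  have hα1 : α ≤ 1 := by
    rw [hα, div_le_one (by positivity)]
    have h1 : A.card ≤ Fintype.card (Fin n → ZMod 2) := Finset.card_le_univ A
    rw [Fintype.card_fun, ZMod.card, Fintype.card_fin] at h1
    exact_mod_cast h1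
  set X : ℝ := Real.log (1 / (ε * α)) with hX
  have hX0 : 0 ≤ X := by
    rw [hX]
    apply Real.log_nonneg
    rw [le_div_iff₀ (by positivity), one_mul]
    calc ε * α ≤ 1 * 1 := mul_le_mul hε1 hα1 hα0.le (by norm_num)
      _ = 1 := by norm_num
  obtain ⟨l, hl⟩ : ∃ l : ℕ, l = ⌈2 * X⌉₊ + 1 := ⟨_, rfl⟩
  have hl1 : 1 ≤ l := by omega
  have hlX : 2 * X ≤ l := by
    rw [hl]; push_cast
    linarith [Nat.le_ceil (2 * X)]
  have hlX2 : (l : ℝ) ≤ 2 * (1 + X) := by
    rw [hl]; push_cast
    linarith [Nat.ceil_lt_add_one (show 0 ≤ 2 * X by linarith)]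
  have hexp : Real.exp X ≤ 2 ^ l := by
    have h1 : Real.exp 1 ≤ 4 := by linarith [Real.exp_one_lt_d9]
    have h2 : Real.exp (1 / 2) ≤ 2 := by
      have h3 : Real.exp (1 / 2) ^ 2 ≤ 2 ^ 2 := by
        rw [← Real.exp_nat_mul]
        norm_num
        exact h1
      exact le_of_sq_le_sq h3 (by norm_num)
    calc Real.exp X ≤ Real.exp ((l : ℝ) * (1 / 2)) := Real.exp_le_exp.2 (by linarith)
      _ = Real.exp (1 / 2) ^ l := by rw [Real.exp_nat_mul]
      _ ≤ 2 ^ l := pow_le_pow_left₀ (Real.exp_pos _).le h2 l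
  have hexp2 : 1 / (ε * α) ≤ 2 ^ l := by
    refine le_trans (le_of_eq ?_) hexp
    rw [hX, Real.exp_log (by positivity)]
  have hprod : 1 ≤ 2 ^ l * (ε * α) := by
    rwa [div_le_iff₀ (by positivity)] at hexp2
  have h2l : (0 : ℝ) < 2 ^ l := by positivity
  have hε : 1 ≤ 2 ^ l * ε := by
    refine le_trans hprod ?_
    apply mul_le_mul_of_nonneg_left _ h2l.le
    nlinarith
  have hαl : (2 : ℝ) ^ n ≤ 2 ^ l * A.card := by
    have h1 : 1 ≤ 2 ^ l * α := by
      refine le_trans hprod ?_
      apply mul_le_mul_of_nonneg_left _ h2l.le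
      nlinarith
    rw [hα, ← mul_div_assoc, le_div_iff₀ (by positivity), one_mul] at h1
    exact h1
  obtain ⟨V, hV1, hV2⟩ := good_of A hA ε l hl1 hε hαl
  refine ⟨V, ?_, hV2⟩
  have h1 : (n : ℝ) - (Module.finrank (ZMod 2) V : ℝ) ≤ 140000000000000 * (l : ℝ) ^ 13 := by
    have h2 := cost_le l hl1
    have h3 : n ≤ Module.finrank (ZMod 2) V + 140000000000000 * l ^ 13 := by omega
    have h4 : (n : ℝ) ≤ (Module.finrank (ZMod 2) V : ℝ) + 140000000000000 * (l : ℝ) ^ 13 := by
      exact_mod_cast h3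
    linarith
  have hl0 : (0 : ℝ) ≤ l := by positivity
  have h1X : (1 : ℝ) ≤ 1 + X := by linarith
  calc (n : ℝ) - (Module.finrank (ZMod 2) V : ℝ) ≤ 140000000000000 * (l : ℝ) ^ 13 := h1
    _ ≤ 140000000000000 * (2 * (1 + X)) ^ 13 := by
        apply mul_le_mul_of_nonneg_left _ (by norm_num)
        exact pow_le_pow_left₀ hl0 hlX2 13
    _ ≤ 2000000000000000000 * (1 + X) ^ 13 := by
        rw [mul_pow]
        have : (0 : ℝ) ≤ (1 + X) ^ 13 := by positivity
        nlinarith
    _ ≤ 2000000000000000000 * (1 + X) ^ (2000000000000000000 : ℝ) := by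
        apply mul_le_mul_of_nonneg_left _ (by norm_num)
        rw [← Real.rpow_natCast]
        apply Real.rpow_le_rpow_of_exponent_le h1X
        norm_num

end Pool.Agent.H149R2
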